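import Pool.Agent.KEQ.Gr

/-!
# The unipotent automorphism
-/

set_option autoImplicit false

open Pool.Agent.KEQ (Cl cl cl_eq cl_add)

namespace Pool.Agent.KE5

universe u

section

variable {MX MZ : Type u} [AddCommGroup MX] [AddCommGroup MZ] (fu : MX →+ MZ) (fd : MZ →+ MX)

/-- The projection to the kernel. -/
def prj (hf : ∀ x, fd (fu x) = x) : MZ →+ fd.ker where
  toFun z := ⟨z - fu (fd z), by rw [AddMonoidHom.mem_ker, map_sub, hf, sub_self]⟩
  map_zero' := by simp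
  map_add' a b := Subtype.ext (by simp; abel)

theorem prj_val (hf : ∀ x, fd (fu x) = x) (z : MZ) : (prj fu fd hf z : MZ) = z - fu (fd z) := rfl

theorem split_one (hf : ∀ x, fd (fu x) = x) (HZ : AddSubgroup MZ) :
    cl (MZ ⧸ (fd.ker ⊓ HZ)) = cl MX + cl (↥fd.ker ⧸ HZ.addSubgroupOf fd.ker) := by
  rw [cl_add, cl_eq]
  let φ : MZ →+ MX × (↥fd.ker ⧸ HZ.addSubgroupOf fd.ker) :=
    fd.prod ((QuotientAddGroup.mk' (HZ.addSubgroupOf fd.ker)).comp (prj fu fd hf))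
  have hφ : Function.Surjective φ := by
    rintro ⟨x, q⟩
    obtain ⟨p, rfl⟩ := QuotientAddGroup.mk_surjective q
    have hp : fd (p : MZ) = 0 := p.2
    refine ⟨fu x + p, Prod.ext ?_ ?_⟩
    · change fd (fu x + p) = x
      rw [map_add, hf, hp, add_zero]
    · change QuotientAddGroup.mk (prj fu fd hf (fu x + p)) = _
      congr 1
      apply Subtype.ext
      rw [prj_val, map_add, hf, hp, add_zero]
      abel
  have hk : φ.ker = fd.ker ⊓ HZ := by
    ext z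
    rw [AddMonoidHom.mem_ker, AddMonoidHom.prod_apply, Prod.mk_eq_zero, AddSubgroup.mem_inf,
      AddMonoidHom.mem_ker]
    refine and_congr_right fun hz => ?_
    change QuotientAddGroup.mk (prj fu fd hf z) = 0 ↔ _
    rw [QuotientAddGroup.eq_zero_iff, AddSubgroup.mem_addSubgroupOf, prj_val, hz, map_zero, sub_zero]
  exact ⟨(QuotientAddGroup.quotientAddEquivOfEq hk.symm).trans
    (QuotientAddGroup.quotientKerEquivOfSurjective φ hφ)⟩

theorem split_two (hf : ∀ x, fd (fu x) = x) (HX : AddSubgroup MX) (HZ : AddSubgroup MZ)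
    (h_fu : ∀ x ∈ HX, fu x ∈ HZ) (h_fd : ∀ z ∈ HZ, fd z ∈ HX) :
    cl (MZ ⧸ HZ) = cl (MX ⧸ HX) + cl (↥fd.ker ⧸ HZ.addSubgroupOf fd.ker) := by
  rw [cl_add, cl_eq]
  let φ : MZ →+ (MX ⧸ HX) × (↥fd.ker ⧸ HZ.addSubgroupOf fd.ker) :=
    ((QuotientAddGroup.mk' HX).comp fd).prod
      ((QuotientAddGroup.mk' (HZ.addSubgroupOf fd.ker)).comp (prj fu fd hf))
  have hφ : Function.Surjective φ := by
    rintro ⟨r, q⟩
    obtain ⟨x, rfl⟩ := QuotientAddGroup.mk_surjective r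
    obtain ⟨p, rfl⟩ := QuotientAddGroup.mk_surjective q
    have hp : fd (p : MZ) = 0 := p.2
    refine ⟨fu x + p, Prod.ext ?_ ?_⟩
    · change QuotientAddGroup.mk (fd (fu x + p)) = _
      rw [map_add, hf, hp, add_zero]
    · change QuotientAddGroup.mk (prj fu fd hf (fu x + p)) = _
      congr 1
      apply Subtype.ext
      rw [prj_val, map_add, hf, hp, add_zero]
      abel
  have hk : φ.ker = HZ := by
    ext z
    rw [AddMonoidHom.mem_ker, AddMonoidHom.prod_apply, Prod.mk_eq_zero]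
    change QuotientAddGroup.mk (fd z) = 0 ∧ QuotientAddGroup.mk (prj fu fd hf z) = 0 ↔ _
    rw [QuotientAddGroup.eq_zero_iff, QuotientAddGroup.eq_zero_iff, AddSubgroup.mem_addSubgroupOf,
      prj_val]
    constructor
    · rintro ⟨h1, h2⟩
      have h3 := HZ.add_mem h2 (h_fu _ h1)
      rwa [sub_add_cancel] at h3
    · intro hz
      exact ⟨h_fd z hz, HZ.sub_mem hz (h_fu _ (h_fd z hz))⟩
  exact ⟨(QuotientAddGroup.quotientAddEquivOfEq hk.symm).trans
    (QuotientAddGroup.quotientKerEquivOfSurjective φ hφ)⟩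

end

variable {MX MY MZ : Type u} [AddCommGroup MX] [AddCommGroup MY] [AddCommGroup MZ]

/-- The unipotent automorphism `1 - f^* f_* g^* g_* (1 - f^* f_*)`. -/
def uni (fu : MX →+ MZ) (fd : MZ →+ MX) (gu : MY →+ MZ) (gd : MZ →+ MY)
    (hf : ∀ x, fd (fu x) = x) : MZ ≃+ MZ where
  toFun z := z - fu (fd (gu (gd (z - fu (fd z)))))
  invFun z := z + fu (fd (gu (gd (z - fu (fd z)))))
  left_inv z := by simp [hf]
  right_inv z := by simp [hf]
  map_add' a b := by simp only [map_add, map_sub]; abel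

theorem alg_core (fu : MX →+ MZ) (fd : MZ →+ MX) (gu : MY →+ MZ) (gd : MZ →+ MY)
    (hf : ∀ x, fd (fu x) = x) (hg : ∀ y, gd (gu y) = y)
    (HX : AddSubgroup MX) (HY : AddSubgroup MY) (HZ : AddSubgroup MZ)
    (h_fu : ∀ x ∈ HX, fu x ∈ HZ) (h_fd : ∀ z ∈ HZ, fd z ∈ HX)
    (h_gu : ∀ y ∈ HY, gu y ∈ HZ) (h_gd : ∀ z ∈ HZ, gd z ∈ HY)
    (h1 : ∀ w ∈ HZ, fd w = 0 → fu (fd (gu (gd w))) = gu (gd w))
    (h2 : ∀ w ∈ HZ, gd w = 0 → gu (gd (fu (fd w))) = fu (fd w)) :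
    ∃ L L' : Cl.{u}, cl MX + L = cl MY + L' ∧ cl (MZ ⧸ HZ) = cl (MX ⧸ HX) + L ∧
      cl (MZ ⧸ HZ) = cl (MY ⧸ HY) + L' := by
  refine ⟨_, _, ?_, split_two fu fd hf HX HZ h_fu h_fd, split_two gu gd hg HY HZ h_gu h_gd⟩
  rw [← split_one fu fd hf HZ, ← split_one gu gd hg HZ, cl_eq]
  refine ⟨QuotientAddGroup.congr _ _ (uni fu fd gu gd hf) ?_⟩
  ext q
  rw [AddSubgroup.mem_map]
  constructor
  · rintro ⟨p, ⟨hp1, hp2⟩, rfl⟩
    have hp0 : fd p = 0 := hp1
    have h3 : uni fu fd gu gd hf p = p - gu (gd p) := by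
      change p - fu (fd (gu (gd (p - fu (fd p))))) = _
      rw [hp0, map_zero, sub_zero, h1 p hp2 hp0]
    change uni fu fd gu gd hf p ∈ _
    rw [h3]
    refine ⟨?_, HZ.sub_mem hp2 (h_gu _ (h_gd p hp2))⟩
    change gd (p - gu (gd p)) = 0
    rw [map_sub, hg, sub_self]
  · rintro ⟨hq1, hq2⟩
    have hq0 : gd q = 0 := hq1
    have hmem : q - fu (fd q) ∈ HZ := HZ.sub_mem hq2 (h_fu _ (h_fd q hq2))
    have hfd : fd (q - fu (fd q)) = 0 := by rw [map_sub, hf, sub_self]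
    refine ⟨q - fu (fd q), ⟨hfd, hmem⟩, ?_⟩
    change (q - fu (fd q)) - fu (fd (gu (gd ((q - fu (fd q)) - fu (fd (q - fu (fd q))))))) = q
    rw [hfd, map_zero, sub_zero, h1 _ hmem hfd, map_sub, hq0, zero_sub, map_neg, h2 q hq2 hq0]
    abel

end Pool.Agent.KE5
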