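import Pool.Agent.KE5.Tow
import Pool.Agent.KE5.Alg

/-!
# Comparison of the Grothendieck groups of K-equivalent varieties
-/

set_option autoImplicit false

open CategoryTheory
open Pool.Agent.KEQ (GeoData Geo SameExc Tower Cl cl cl_eq KEq)

namespace Pool.Agent.KE5

universe u

/-! ### Induced homomorphisms -/

section

variable {K₁ K₂ : Type u} [AddCommGroup K₁] [AddCommGroup K₂]

/-- The induced homomorphism of quotients of subgroups. -/
def qmap (φ : K₁ →+ K₂) (B₁ C₁ : AddSubgroup K₁) (B₂ C₂ : AddSubgroup K₂) (hC : ∀ x ∈ C₁, φ x ∈ C₂)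
    (hB : ∀ x ∈ B₁, φ x ∈ B₂) : (↥C₁ ⧸ B₁.addSubgroupOf C₁) →+ (↥C₂ ⧸ B₂.addSubgroupOf C₂) :=
  QuotientAddGroup.map _ _ ((φ.comp C₁.subtype).codRestrict C₂ fun x => hC x x.2) (by
    intro x hx
    rw [AddSubgroup.mem_comap, AddSubgroup.mem_addSubgroupOf]
    exact hB _ (AddSubgroup.mem_addSubgroupOf.1 hx))

theorem qmap_mk (φ : K₁ →+ K₂) (B₁ C₁ : AddSubgroup K₁) (B₂ C₂ : AddSubgroup K₂)
    (hC : ∀ x ∈ C₁, φ x ∈ C₂) (hB : ∀ x ∈ B₁, φ x ∈ B₂) (x : K₁) (hx : x ∈ C₁) :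
    qmap φ B₁ C₁ B₂ C₂ hC hB (QuotientAddGroup.mk ⟨x, hx⟩) = QuotientAddGroup.mk ⟨φ x, hC x hx⟩ := rfl

end

theorem mk_eq {K : Type u} [AddCommGroup K] {B C : AddSubgroup K} {x y : K} (hx : x ∈ C) (hy : y ∈ C) :
    ((⟨x, hx⟩ : C) : ↥C ⧸ B.addSubgroupOf C) = ((⟨y, hy⟩ : C) : ↥C ⧸ B.addSubgroupOf C) ↔
      x - y ∈ B := by
  rw [QuotientAddGroup.eq, AddSubgroup.mem_addSubgroupOf, ← neg_mem_iff]
  change -(-x + y) ∈ B ↔ _
  rw [neg_add, neg_neg, sub_eq_add_neg]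

theorem mk_zero {K : Type u} [AddCommGroup K] {B C : AddSubgroup K} {x : K} (hx : x ∈ C) :
    ((⟨x, hx⟩ : C) : ↥C ⧸ B.addSubgroupOf C) = 0 ↔ x ∈ B := by
  rw [QuotientAddGroup.eq_zero_iff, AddSubgroup.mem_addSubgroupOf]

/-- The image of `H` in `C / B`. -/
def him {K : Type u} [AddCommGroup K] (B H C : AddSubgroup K) : AddSubgroup (↥C ⧸ B.addSubgroupOf C) :=
  (H.addSubgroupOf C).map (QuotientAddGroup.mk' (B.addSubgroupOf C))

theorem mem_him {K : Type u} [AddCommGroup K] {B H C : AddSubgroup K} (hB : B ≤ H) {x : K} (hx : x ∈ C) :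
    ((⟨x, hx⟩ : C) : ↥C ⧸ B.addSubgroupOf C) ∈ him B H C ↔ x ∈ H := by
  constructor
  · rintro ⟨⟨y, hy⟩, hyH, he⟩
    have h1 : y - x ∈ B := (mk_eq hy hx).1 he
    have h2 : y ∈ H := AddSubgroup.mem_addSubgroupOf.1 hyH
    have h3 := H.sub_mem h2 (hB h1)
    rwa [sub_sub_cancel] at h3
  · intro h
    exact ⟨⟨x, hx⟩, AddSubgroup.mem_addSubgroupOf.2 h, rfl⟩

theorem cl_him {K : Type u} [AddCommGroup K] {B H C : AddSubgroup K} (hB : B ≤ H) :
    cl ((↥C ⧸ B.addSubgroupOf C) ⧸ him B H C) = cl (↥C ⧸ H.addSubgroupOf C) := by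
  rw [cl_eq]
  exact ⟨QuotientAddGroup.quotientQuotientEquivQuotient (B.addSubgroupOf C) (H.addSubgroupOf C)
    (AddSubgroup.comap_mono hB)⟩

/-! ### The comparison -/

variable {G : GeoData} {K : G.V → Type u} [∀ X, AddCommGroup (K X)] {F : ℕ → ∀ X, AddSubgroup (K X)}
  {ι : Type} {T : Core G K F ι} {B H C : ∀ X, AddSubgroup (K X)} {n q : ℕ}

/-- The classes in `H` with small support. -/
theorem mov_filt (hB : Good T B) (hH : Good T H)
    (hD : ∀ (V : G.V), G.dim V + 2 ≤ n → ∀ x ∈ H V, x ∈ F (q + 2) V → x ∈ B V) :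
    Mov T n (fun X => H X ⊓ F (q + 2) X) B where
  up f y _ _ hy := ⟨hH.pull f y hy.1, T.filtration.2.1 f _ y hy.2⟩
  down f x hf _ hx := ⟨hH.push f x hx.1, T.filtration.2.2 f _ _ x (by rw [T.birs.2.2 f hf]) hx.2⟩
  small g x hn hg hx := by
    obtain ⟨W', V, τ, h, i, hτ, he, hd⟩ := T.images g hg
    have h1 : T.pull g x = T.push τ (T.pull h (T.pull i x)) := by
      rw [← T.functorial.2.1, ← he, T.functorial.2.1, T.functorial.2.2.2 _ _ hτ]
    rw [h1]
    exact hB.push τ _ (hB.pull h _ (hD V (by omega) _ (hH.pull i x hx.1)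
      (T.filtration.2.1 i _ x hx.2)))

/-- The canonical comparison, with the unipotent automorphism. -/
theorem compare (hB : Good T B) (hH : Good T H) (hC : Good T C) (hBH : ∀ X, B X ≤ H X)
    (hHC : ∀ X, H X ≤ C X) (hq : ∀ (V : G.V), ∀ x ∈ H V, ∃ b ∈ B V, x - b ∈ F q V)
    (hD : ∀ (V : G.V), G.dim V + 2 ≤ n → ∀ x ∈ H V, x ∈ F (q + 2) V → x ∈ B V)
    {Z X Y : G.V} (f : Z ⟶ X) (g : Z ⟶ Y) (hf : G.bir f) (hg : G.bir g) (hE : SameExc G f g)
    (hX : G.dim X = n) : ∃ L L' : Cl.{u}, cl (Qt B C X) + L = cl (Qt B C Y) + L' ∧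
      cl (Qt H C Z) = cl (Qt H C X) + L ∧ cl (Qt H C Z) = cl (Qt H C Y) + L' := by
  have hZ : G.dim Z = n := (T.birs.2.2 f hf).trans hX
  have hY : G.dim Y = n := (T.birs.2.2 g hg).symm.trans hZ
  have hE' : SameExc G g f := fun D i hi => (hE D i hi).symm
  have hm := mov_filt (n := n) (q := q) hB hH hD
  -- the key property, for both sides
  have key : ∀ {X Y : G.V} (f : Z ⟶ X) (g : Z ⟶ Y), G.bir f → G.bir g → SameExc G f g →
      G.dim X = n → G.dim Y = n → ∀ w ∈ H Z, T.push f w ∈ B X →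
        T.pull f (T.push f (T.pull g (T.push g w))) - T.pull g (T.push g w) ∈ B Z := by
    intro X Y f g hf hg hE hX hY w hw h0
    have hE' : SameExc G g f := fun D i hi => (hE D i hi).symm
    obtain ⟨b, hb, t, ht, hbt⟩ := AddSubgroup.mem_sup.1 (ker_push hB hH q hq f g hf hg hE w hw h0)
    have htH : t ∈ H Y := by
      have h1 := (H Y).sub_mem (hH.push g w hw) (hBH Y hb)
      rwa [← hbt, add_sub_cancel_left] at h1
    have h2 := canon hB hm g f hg hf hE' hY t ⟨htH, ht⟩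
    have h3 : T.pull f (T.push f (T.pull g b)) - T.pull g b ∈ B Z :=
      (B Z).sub_mem (hB.pull f _ (hB.push f _ (hB.pull g _ hb))) (hB.pull g _ hb)
    have h4 := (B Z).sub_mem h3 h2
    have h5 : T.pull f (T.push f (T.pull g (T.push g w))) - T.pull g (T.push g w) =
        T.pull f (T.push f (T.pull g b)) - T.pull g b -
          (T.pull g t - T.pull f (T.push f (T.pull g t))) := by
      rw [← hbt]
      simp only [map_add]
      abel
    rw [h5]
    exact h4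
  have r := alg_core
    (qmap (T.pull f) (B X) (C X) (B Z) (C Z) (hC.pull f) (hB.pull f))
    (qmap (T.push f) (B Z) (C Z) (B X) (C X) (hC.push f) (hB.push f))
    (qmap (T.pull g) (B Y) (C Y) (B Z) (C Z) (hC.pull g) (hB.pull g))
    (qmap (T.push g) (B Z) (C Z) (B Y) (C Y) (hC.push g) (hB.push g))
    (by
      intro x
      obtain ⟨⟨x, hx⟩, rfl⟩ := QuotientAddGroup.mk_surjective x
      rw [qmap_mk, qmap_mk, mk_eq, T.functorial.2.2.2 f x hf, sub_self]
      exact (B X).zero_mem)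
    (by
      intro x
      obtain ⟨⟨x, hx⟩, rfl⟩ := QuotientAddGroup.mk_surjective x
      rw [qmap_mk, qmap_mk, mk_eq, T.functorial.2.2.2 g x hg, sub_self]
      exact (B Y).zero_mem)
    (him (B X) (H X) (C X)) (him (B Y) (H Y) (C Y)) (him (B Z) (H Z) (C Z))
    (by
      intro x hx
      obtain ⟨⟨x, hxC⟩, rfl⟩ := QuotientAddGroup.mk_surjective x
      rw [mem_him (hBH X)] at hx
      rw [qmap_mk, mem_him (hBH Z)]
      exact hH.pull f x hx)
    (by
      intro x hx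
      obtain ⟨⟨x, hxC⟩, rfl⟩ := QuotientAddGroup.mk_surjective x
      rw [mem_him (hBH Z)] at hx
      rw [qmap_mk, mem_him (hBH X)]
      exact hH.push f x hx)
    (by
      intro x hx
      obtain ⟨⟨x, hxC⟩, rfl⟩ := QuotientAddGroup.mk_surjective x
      rw [mem_him (hBH Y)] at hx
      rw [qmap_mk, mem_him (hBH Z)]
      exact hH.pull g x hx)
    (by
      intro x hx
      obtain ⟨⟨x, hxC⟩, rfl⟩ := QuotientAddGroup.mk_surjective x
      rw [mem_him (hBH Z)] at hx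
      rw [qmap_mk, mem_him (hBH Y)]
      exact hH.push g x hx)
    (by
      intro w hw h0
      obtain ⟨⟨w, hwC⟩, rfl⟩ := QuotientAddGroup.mk_surjective w
      rw [mem_him (hBH Z)] at hw
      rw [qmap_mk, mk_zero] at h0
      simp only [qmap_mk]
      rw [mk_eq]
      exact key f g hf hg hE hX hY w hw h0)
    (by
      intro w hw h0
      obtain ⟨⟨w, hwC⟩, rfl⟩ := QuotientAddGroup.mk_surjective w
      rw [mem_him (hBH Z)] at hw
      rw [qmap_mk, mk_zero] at h0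
      simp only [qmap_mk]
      rw [mk_eq]
      exact key g f hg hf hE' hY hX w hw h0)
  obtain ⟨L, L', h1, h2, h3⟩ := r
  rw [cl_him (hBH Z), cl_him (hBH X)] at h2
  rw [cl_him (hBH Z), cl_him (hBH Y)] at h3
  exact ⟨L, L', h1, h2, h3⟩

end Pool.Agent.KE5
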