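import Pool.Agent.KE5.St
import Pool.Agent.KEQ.Bit

/-!
# Finite and finitely generated quotients of K-equivalent varieties
-/

set_option autoImplicit false

open CategoryTheory Cardinal
open Pool.Agent.KEQ (GeoData Geo Motivic Cl cl cl_eq cl_add cl_pi cl_surj KEq qm qm_pos t_FGM tr tr_cl tr_add
  tr_zero)

namespace Pool.Agent.KE5

universe u

/-- A finitely generated group is isomorphic to one in `Type`. -/
theorem small_fg (M : Type u) [AddCommGroup M] [Module.Finite ℤ M] :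
    ∃ (N : Type) (_ : AddCommGroup N) (_ : Module.Finite ℤ N), Nonempty (M ≃+ N) := by
  obtain ⟨n, φ, hφ⟩ := Module.Finite.exists_fin' ℤ M
  refine ⟨(Fin n → ℤ) ⧸ φ.toAddMonoidHom.ker, inferInstance, ?_,
    ⟨(QuotientAddGroup.quotientKerEquivOfSurjective φ.toAddMonoidHom hφ).symm⟩⟩
  exact Module.Finite.of_surjective (QuotientAddGroup.mk' φ.toAddMonoidHom.ker).toIntLinearMap
    (QuotientAddGroup.mk'_surjective _)

theorem qm_pi' (N : Type) [AddCommGroup N] (n m : ℕ) :
    Real.log (qm (Fin n → N) m) = n * Real.log (qm N m) := by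
  rw [Pool.Agent.KEQ.LFGM.qm_pi]
  simp

theorem t_FGU (hMOT : S_MOT) (hMEA : S_MEA.{u}) : S_FGU.{u} := by
  intro G K _ F ι T B C hB hC hBC hfg X Y h
  obtain ⟨m1, m2, m3⟩ := hMEA G K F ι T B C hB hC hBC
  have h1 : ∀ X, ∃ (N : Type) (_ : AddCommGroup N) (_ : Module.Finite ℤ N),
      Nonempty (Qt B C X ≃+ N) := fun X => by
    have := hfg X
    exact small_fg _
  choose N iN fN e using h1
  have key : ∀ m : ℕ, 1 ≤ m → Real.log (qm (N X) m) = Real.log (qm (N Y) m) := by
    intro m hm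
    have hpi : ∀ (W Z : G.V) (n : ℕ), cl (Qt B C W) = n • cl (Qt B C Z) →
        Real.log (qm (N W) m) = n * Real.log (qm (N Z) m) := by
      intro W Z n hW
      rw [← cl_pi] at hW
      obtain ⟨i⟩ := cl_eq.1 hW
      obtain ⟨eW⟩ := e W
      obtain ⟨eZ⟩ := e Z
      rw [← qm_pi', Pool.Agent.KEQ.LFGM.qm_congr
        ((eW.symm.trans i).trans (AddEquiv.piCongrRight fun _ => eZ))]
    refine hMOT G T.toGeo T.motivic (fun X => Real.log (qm (N X) m)) ?_ ?_ ?_ X Y h
    · intro X Y i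
      obtain ⟨i⟩ := cl_eq.1 (m1 X Y i)
      obtain ⟨eX⟩ := e X
      obtain ⟨eY⟩ := e Y
      change Real.log (qm (N X) m) = Real.log (qm (N Y) m)
      rw [Pool.Agent.KEQ.LFGM.qm_congr ((eX.symm.trans i).trans eY)]
    · intro P X a hP
      exact hpi P X (a + 1) (m2 P X a hP)
    · intro X' X E Z β j c hb
      obtain ⟨h1, h2⟩ := m3 β j c hb
      refine ⟨?_, hpi E Z c h2⟩
      rw [← cl_pi, cl_add] at h1
      obtain ⟨i⟩ := cl_eq.1 h1
      obtain ⟨eX'⟩ := e X'
      obtain ⟨eX⟩ := e X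
      obtain ⟨eZ⟩ := e Z
      change Real.log (qm (N X') m) = Real.log (qm (N X) m) + ((c - 1 : ℕ) : ℝ) * Real.log (qm (N Z) m)
      rw [Pool.Agent.KEQ.LFGM.qm_congr ((eX'.symm.trans i).trans
        (eX.prodCongr (AddEquiv.piCongrRight fun _ => eZ))), Pool.Agent.KEQ.LFGM.qm_prod, Nat.cast_mul,
        Real.log_mul, qm_pi']
      · exact_mod_cast (qm_pos (N X) m hm).ne'
      · exact_mod_cast (qm_pos (Fin (c - 1) → N Z) m hm).ne'
  obtain ⟨i⟩ := t_FGM (N X) (N Y) fun m hm => by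
    have h4 := Real.log_injOn_pos (Set.mem_Ioi.2 (by exact_mod_cast qm_pos (N X) m hm))
      (Set.mem_Ioi.2 (by exact_mod_cast qm_pos (N Y) m hm)) (key m hm)
    exact_mod_cast h4
  obtain ⟨eX⟩ := e X
  obtain ⟨eY⟩ := e Y
  exact cl_eq.2 ⟨(eX.trans i).trans eY.symm⟩

/-- The number of elements of the `n`-torsion, as a function of the class. -/
noncomputable def nt (n : ℕ) (c : Cl.{u}) : ℕ := (tr n c).toNat

theorem nt_cl (n : ℕ) (M : Type u) [AddCommGroup M] : nt n (cl M) = Nat.card {x : M // n • x = 0} := by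
  rw [nt, tr_cl]
  rfl

theorem nt_add (n : ℕ) (a b : Cl.{u}) : nt n (a + b) = nt n a * nt n b := by
  rw [nt, tr_add, Cardinal.toNat_mul]
  rfl

theorem nt_smul (n m : ℕ) (a : Cl.{u}) : nt n (m • a) = nt n a ^ m := by
  induction m with
  | zero => rw [zero_smul, nt, tr_zero]; simp
  | succ m ih => rw [succ_nsmul, nt_add, ih, pow_succ]

theorem t_TOR (hMOT : S_MOT) (hMEA : S_MEA.{u}) : S_TOR.{u} := by
  intro G K _ F ι T B C hB hC hBC n hfin X Y h
  obtain ⟨m1, m2, m3⟩ := hMEA G K F ι T B C hB hC hBC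
  have hpos : ∀ X, 0 < nt n (cl (Qt B C X)) := by
    intro X
    have := hfin X
    have : Nonempty {x : Qt B C X // n • x = 0} := ⟨⟨0, smul_zero n⟩⟩
    rw [nt_cl]
    exact Nat.card_pos
  have key := hMOT G T.toGeo T.motivic (fun X => Real.log (nt n (cl (Qt B C X))))
    (fun X Y i => by rw [m1 X Y i])
    (fun P X a hP => by
      change Real.log (nt n (cl (Qt B C P))) = _
      rw [m2 P X a hP, nt_smul, Nat.cast_pow, Real.log_pow])
    (fun {X' X E Z} β j c hb => by
      obtain ⟨h1, h2⟩ := m3 β j c hb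
      constructor
      · change Real.log (nt n (cl (Qt B C X'))) = _
        rw [h1, nt_add, nt_smul, Nat.cast_mul, Real.log_mul, Nat.cast_pow, Real.log_pow]
        · exact_mod_cast (hpos X).ne'
        · exact_mod_cast pow_ne_zero _ (hpos Z).ne'
      · change Real.log (nt n (cl (Qt B C E))) = _
        rw [h2, nt_smul, Nat.cast_pow, Real.log_pow]) X Y h
  have h4 := Real.log_injOn_pos (Set.mem_Ioi.2 (by exact_mod_cast hpos X))
    (Set.mem_Ioi.2 (by exact_mod_cast hpos Y)) key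
  rw [← nt_cl, ← nt_cl]
  exact_mod_cast h4

end Pool.Agent.KE5
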