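import Pool.Agent.KE5.Tow

/-!
# The quotients of natural subgroups are additive
-/

set_option autoImplicit false

open CategoryTheory
open Pool.Agent.KEQ (GeoData Geo Cl cl cl_eq cl_add cl_pi)

namespace Pool.Agent.KE5

universe u

/-- A surjection that respects the subgroups induces an isomorphism of the quotients. -/
theorem quot_iso {C Q : Type u} [AddCommGroup C] [AddCommGroup Q] (B : AddSubgroup C) (φ : C →+ Q)
    (hφ : Function.Surjective φ) (hk : ∀ x, φ x = 0 ↔ x ∈ B) : Nonempty ((C ⧸ B) ≃+ Q) := by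
  have h : φ.ker = B := by
    ext x
    rw [AddMonoidHom.mem_ker]
    exact hk x
  exact ⟨(QuotientAddGroup.quotientAddEquivOfEq h.symm).trans
    (QuotientAddGroup.quotientKerEquivOfSurjective φ hφ)⟩

/-- The quotient of a finite power. -/
theorem quot_pi {C : Type u} [AddCommGroup C] (B : AddSubgroup C) (m : ℕ) :
    cl ((Fin m → C) ⧸ (AddSubgroup.pi Set.univ fun _ : Fin m => B)) = m • cl (C ⧸ B) := by
  rw [← cl_pi, cl_eq]
  let φ : (Fin m → C) →+ (Fin m → C ⧸ B) :=
    { toFun := fun x i => (x i : C ⧸ B)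
      map_zero' := rfl
      map_add' := fun x y => rfl }
  refine quot_iso _ φ ?_ ?_
  · intro y
    choose x hx using fun i => QuotientAddGroup.mk_surjective (y i)
    exact ⟨x, funext hx⟩
  · intro x
    rw [AddSubgroup.mem_pi]
    constructor
    · intro h i _
      exact (QuotientAddGroup.eq_zero_iff _).1 (congrFun h i)
    · intro h
      funext i
      exact (QuotientAddGroup.eq_zero_iff _).2 (h i (Set.mem_univ i))

/-- Isomorphisms that respect the subgroups. -/
theorem quot_congr {C C' : Type u} [AddCommGroup C] [AddCommGroup C'] (B : AddSubgroup C)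
    (B' : AddSubgroup C') (e : C ≃+ C') (h : ∀ x, x ∈ B ↔ e x ∈ B') : cl (C ⧸ B) = cl (C' ⧸ B') := by
  rw [cl_eq]
  refine ⟨QuotientAddGroup.congr B B' e ?_⟩
  ext y
  rw [AddSubgroup.mem_map]
  constructor
  · rintro ⟨x, hx, rfl⟩
    exact (h x).1 hx
  · intro hy
    refine ⟨e.symm y, (h _).2 (by rwa [e.apply_symm_apply]), e.apply_symm_apply y⟩

/-- Products. -/
theorem quot_prod {C C' : Type u} [AddCommGroup C] [AddCommGroup C'] (B : AddSubgroup C)
    (B' : AddSubgroup C') : cl ((C × C') ⧸ B.prod B') = cl (C ⧸ B) + cl (C' ⧸ B') := by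
  rw [cl_add, cl_eq]
  let φ : C × C' →+ (C ⧸ B) × (C' ⧸ B') :=
    (QuotientAddGroup.mk' B).prodMap (QuotientAddGroup.mk' B')
  refine quot_iso _ φ ?_ ?_
  · rintro ⟨a, b⟩
    obtain ⟨a, rfl⟩ := QuotientAddGroup.mk_surjective a
    obtain ⟨b, rfl⟩ := QuotientAddGroup.mk_surjective b
    exact ⟨(a, b), rfl⟩
  · rintro ⟨a, b⟩
    rw [AddSubgroup.mem_prod]
    change ((a : C ⧸ B), (b : C' ⧸ B')) = 0 ↔ _
    rw [Prod.mk_eq_zero, QuotientAddGroup.eq_zero_iff, QuotientAddGroup.eq_zero_iff]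

/-- An injective homomorphism `M → K` with image `C` such that `B` is the image of `N`. -/
theorem quot_sub {M K : Type u} [AddCommGroup M] [AddCommGroup K] (N : AddSubgroup M) (B C : AddSubgroup K)
    (φ : M →+ K) (hi : ∀ x, φ x = 0 → x = 0) (hC : ∀ x, φ x ∈ C) (hs : ∀ y ∈ C, ∃ x, φ x = y)
    (hN : ∀ x, x ∈ N ↔ φ x ∈ B) : cl (M ⧸ N) = cl (↥C ⧸ B.addSubgroupOf C) := by
  refine quot_congr N _ (AddEquiv.ofBijective (φ.codRestrict C hC) ⟨?_, ?_⟩) fun x => ?_
  · rw [injective_iff_map_eq_zero]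
    intro x hx
    exact hi x (congrArg Subtype.val hx)
  · rintro ⟨y, hy⟩
    obtain ⟨x, hx⟩ := hs y hy
    exact ⟨x, Subtype.ext hx⟩
  · rw [hN x, AddSubgroup.mem_addSubgroupOf]
    rfl

variable {G : GeoData} {K : G.V → Type u} [∀ X, AddCommGroup (K X)] {F : ℕ → ∀ X, AddSubgroup (K X)}
  {ι : Type} {T : Core G K F ι} {B C : ∀ X, AddSubgroup (K X)}

/-- Extension of a finite family by zero. -/
def ext0 {A : Type u} [AddCommGroup A] (m : ℕ) (z : Fin m → A) (t : ℕ) : A :=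
  if h : t < m then z ⟨t, h⟩ else 0

theorem sum_ext0 {A A' : Type u} [AddCommGroup A] [AddCommGroup A'] (m : ℕ) (φ : ℕ → (A →+ A'))
    (z : Fin m → A) : ∑ t ∈ Finset.range m, φ t (ext0 m z t) = ∑ t : Fin m, φ t (z t) := by
  rw [Finset.sum_range]
  refine Finset.sum_congr rfl fun t _ => ?_
  rw [ext0, dif_pos t.2]

theorem ext0_mem {A : Type u} [AddCommGroup A] (B : AddSubgroup A) (m : ℕ) (z : Fin m → A) :
    (∀ t < m, ext0 m z t ∈ B) ↔ ∀ t : Fin m, z t ∈ B := by
  constructor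
  · intro h t
    have := h t t.2
    rwa [ext0, dif_pos t.2] at this
  · intro h t ht
    rw [ext0, dif_pos ht]
    exact h _

/-- Bundles. -/
theorem mea_bundle (hB : Good T B) (hC : Good T C) (hBC : ∀ X, B X ≤ C X) {E Z : G.V} {c : ℕ}
    {φ : ℕ → (K Z →+ K E)} (hφ : T.Bundle E Z c φ) : cl (Qt B C E) = c • cl (Qt B C Z) := by
  rw [← quot_pi]
  symm
  let Φ : (Fin c → C Z) →+ K E :=
    { toFun := fun z => ∑ t : Fin c, φ t (z t : K Z)
      map_zero' := by simp
      map_add' := fun x y => by simp [Finset.sum_add_distrib] }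
  have hΦ : ∀ z, Φ z = ∑ t ∈ Finset.range c, φ t (ext0 c (fun t => (z t : K Z)) t) := by
    intro z
    rw [sum_ext0 c φ (fun t => (z t : K Z))]
    rfl
  refine quot_sub _ _ _ Φ ?_ ?_ ?_ ?_
  · intro z hz
    rw [hΦ] at hz
    have h1 := hφ.2.1 _ hz
    funext t
    have h2 := h1 t t.2
    rw [ext0, dif_pos t.2] at h2
    exact Subtype.ext h2
  · intro z
    rw [hΦ, hC.bundle E Z c φ hφ, ext0_mem]
    exact fun t => (z t).2
  · intro y hy
    obtain ⟨z, rfl⟩ := hφ.1 y
    rw [hC.bundle E Z c φ hφ] at hy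
    refine ⟨fun t => ⟨z t, hy t t.2⟩, ?_⟩
    change ∑ t : Fin c, φ t (z t) = _
    rw [Finset.sum_range]
  · intro z
    rw [hΦ, hB.bundle E Z c φ hφ, ext0_mem, AddSubgroup.mem_pi]
    exact ⟨fun h t => AddSubgroup.mem_addSubgroupOf.1 (h t (Set.mem_univ t)),
      fun h t _ => AddSubgroup.mem_addSubgroupOf.2 (h t)⟩

/-- Blow-ups. -/
theorem mea_blow (hB : Good T B) (hC : Good T C) (hBC : ∀ X, B X ≤ C X) {X' X E Z : G.V} (β : X' ⟶ X)
    (j : E ⟶ X') (c : ℕ) (hb : G.blow β j Z c) :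
    cl (Qt B C X') = cl (Qt B C X) + (c - 1) • cl (Qt B C Z) ∧ cl (Qt B C E) = c • cl (Qt B C Z) := by
  obtain ⟨hc, hdim, hbir, -, -⟩ := T.blows β j c hb
  obtain ⟨φ, hφ, hs, hv, hw⟩ := T.blowUps β j c hb
  refine ⟨?_, mea_bundle hB hC hBC hφ⟩
  obtain ⟨m, rfl⟩ : ∃ m, c = m + 1 := ⟨c - 1, by omega⟩
  rw [Nat.add_sub_cancel] at hw ⊢
  rw [← quot_pi, ← quot_prod]
  symm
  let Φ : (C X × (Fin m → C Z)) →+ K X' :=
    { toFun := fun p => T.pull β (p.1 : K X) + ∑ t : Fin m, T.push j (φ (t + 1) (p.2 t : K Z))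
      map_zero' := by simp
      map_add' := fun x y => by
        simp only [Prod.fst_add, Prod.snd_add, Pi.add_apply, AddSubgroup.coe_add, map_add,
          Finset.sum_add_distrib]
        abel }
  have hsum : ∀ z : Fin m → K Z, ∑ t : Fin m, T.push j (φ (t + 1) (z t)) =
      ∑ t ∈ Finset.range m, T.push j (φ (t + 1) (ext0 m z t)) := by
    intro z
    exact (sum_ext0 m (fun t => (T.push j).comp (φ (t + 1))) z).symm
  have hpush0 : ∀ z : Fin m → K Z, T.push β (∑ t : Fin m, T.push j (φ (t + 1) (z t))) = 0 := by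
    intro z
    rw [map_sum]
    refine Finset.sum_eq_zero fun t _ => hv t (z t) ?_
    have := t.2
    omega
  have hpush : ∀ p, T.push β (Φ p) = p.1 := by
    intro p
    change T.push β (T.pull β (p.1 : K X) + ∑ t : Fin m, T.push j (φ (t + 1) (p.2 t : K Z))) = _
    rw [map_add, hpush0, add_zero, T.functorial.2.2.2 β _ hbir]
  -- membership for a good family
  have hmem : ∀ {D : ∀ X, AddSubgroup (K X)}, Good T D → ∀ (x : K X) (z : Fin m → K Z),
      (T.pull β x + ∑ t : Fin m, T.push j (φ (t + 1) (z t)) ∈ D X' ↔ x ∈ D X ∧ ∀ t, z t ∈ D Z) := by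
    intro D hD x z
    constructor
    · intro h
      have hx : x ∈ D X := by
        have h1 := hD.push β _ h
        rwa [map_add, hpush0, add_zero, T.functorial.2.2.2 β _ hbir] at h1
      refine ⟨hx, ?_⟩
      have h2 : ∑ t : Fin m, T.push j (φ (t + 1) (z t)) ∈ D X' := by
        have h3 := (D X').sub_mem h (hD.pull β x hx)
        rwa [add_sub_cancel_left] at h3
      rw [hsum] at h2
      have h3 := hD.pull j _ h2
      rw [map_sum] at h3
      have h4 : ∑ t ∈ Finset.range m, T.pull j (T.push j (φ (t + 1) (ext0 m z t))) =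
          ∑ t ∈ Finset.range m, (φ (t + 1) (ext0 m z t) - φ t (ext0 m z t)) :=
        Finset.sum_congr rfl fun t _ => hs t _
      rw [h4] at h3
      exact (ext0_mem (D Z) m z).1 (bundle_coef hD hφ _ h3)
    · rintro ⟨hx, hz⟩
      refine (D X').add_mem (hD.pull β x hx) ?_
      rw [hsum, ← map_sum]
      exact hD.push j _ (bundle_shift hD hφ _ ((ext0_mem (D Z) m z).2 hz))
  have hbot : Good T (fun _ => ⊥) := by
    refine ⟨fun f y hy => ?_, fun f x hx => ?_, fun E Z c φ hφ z => ?_⟩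
    · rw [AddSubgroup.mem_bot] at hy ⊢
      rw [hy, map_zero]
    · rw [AddSubgroup.mem_bot] at hx ⊢
      rw [hx, map_zero]
    · simp only [AddSubgroup.mem_bot]
      exact ⟨hφ.2.1 z, fun h => Finset.sum_eq_zero fun t ht => by
        rw [h t (Finset.mem_range.1 ht), map_zero]⟩
  refine quot_sub _ _ _ Φ ?_ ?_ ?_ ?_
  · rintro ⟨x, z⟩ h0
    have h1 := (hmem hbot (x : K X) (fun t => (z t : K Z))).1 (AddSubgroup.mem_bot.2 h0)
    refine Prod.ext (Subtype.ext (AddSubgroup.mem_bot.1 h1.1)) (funext fun t => Subtype.ext ?_)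
    exact AddSubgroup.mem_bot.1 (h1.2 t)
  · rintro ⟨x, z⟩
    exact (hmem hC (x : K X) (fun t => (z t : K Z))).2 ⟨x.2, fun t => (z t).2⟩
  · intro w hwC
    obtain ⟨x, z, rfl⟩ := hw w
    have h1 : ∑ t ∈ Finset.range m, T.push j (φ (t + 1) (z t)) =
        ∑ t : Fin m, T.push j (φ (t + 1) (z t)) := by
      rw [Finset.sum_range]
    rw [h1] at hwC ⊢
    obtain ⟨h2, h3⟩ := (hmem hC x (fun t : Fin m => z t)).1 hwC
    exact ⟨(⟨x, h2⟩, fun t => ⟨z t, h3 t⟩), rfl⟩
  · rintro ⟨x, z⟩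
    rw [AddSubgroup.mem_prod, AddSubgroup.mem_pi, AddSubgroup.mem_addSubgroupOf]
    refine Iff.trans ?_ (hmem hB (x : K X) (fun t => (z t : K Z))).symm
    exact and_congr Iff.rfl ⟨fun h t => AddSubgroup.mem_addSubgroupOf.1 (h t (Set.mem_univ t)),
      fun h t _ => AddSubgroup.mem_addSubgroupOf.2 (h t)⟩

theorem t_MEA : S_MEA.{u} := by
  intro G K _ F ι T B C hB hC hBC
  refine ⟨fun X Y h => ?_, fun P X a hP => ?_, fun β j c hb => mea_blow hB hC hBC β j c hb⟩
  · obtain ⟨i⟩ := h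
    have h1 : ∀ y : K Y, T.pull i.inv (T.pull i.hom y) = y := by
      intro y
      rw [← T.functorial.2.1, i.inv_hom_id, T.functorial.1]
    have h2 : ∀ x : K X, T.pull i.hom (T.pull i.inv x) = x := by
      intro x
      rw [← T.functorial.2.1, i.hom_inv_id, T.functorial.1]
    refine quot_congr _ _ ⟨⟨fun x => ⟨T.pull i.inv x.1, hC.pull _ _ x.2⟩,
      fun y => ⟨T.pull i.hom y.1, hC.pull _ _ y.2⟩, fun x => Subtype.ext (h2 x.1),
      fun y => Subtype.ext (h1 y.1)⟩, fun x y => Subtype.ext (map_add _ _ _)⟩ fun x => ?_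
    rw [AddSubgroup.mem_addSubgroupOf, AddSubgroup.mem_addSubgroupOf]
    constructor
    · intro hx
      exact hB.pull _ _ hx
    · intro hx
      have h3 : T.pull i.inv (x : K X) ∈ B Y := hx
      have h4 := hB.pull i.hom _ h3
      rwa [h2] at h4
  · obtain ⟨φ, hφ⟩ := T.bundles P X a hP
    exact mea_bundle hB hC hBC hφ

end Pool.Agent.KE5
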