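import Pool.Agent.KE5.St

/-!
# Additive invariants of K-equivalent varieties
-/

set_option autoImplicit false

open CategoryTheory
open Pool.Agent.KEQ (GeoData Geo Motivic Msr KEq)

namespace Pool.Agent.KE5

theorem t_MOT : S_MOT := by
  intro G T hM μ hiso hprd hblow X Y h
  have hmsr : Msr G μ := by
    refine ⟨hiso, fun X' X E Z β j c hb => ?_⟩
    obtain ⟨h1, h2⟩ := hblow β j c hb
    have hc := (T.blows β j c hb).1
    rw [h1, h2, Nat.cast_sub (by omega)]
    push_cast
    ring
  have hprs : ∀ (pr : G.V → ℕ → G.V), (∀ X a, G.prod (pr X a) X a) → ∀ (l : List ℕ) (X : G.V),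
      μ (l.foldl pr X) = ((l.map (· + 1)).prod : ℕ) * μ X := by
    intro pr hp l
    induction l with
    | nil => intro X; simp
    | cons a l ih =>
      intro X
      have h := ih (pr X a)
      rw [hprd _ X a (hp X a)] at h
      change μ (l.foldl pr (pr X a)) = _
      rw [h, List.map_cons, List.prod_cons]
      push_cast
      ring
  obtain ⟨Z, f, g, hf, hg, hK⟩ := h
  obtain ⟨l, pr, hp, hl⟩ := hM f g hf hg hK
  have h1 := hl ℝ μ hmsr
  rw [hprs pr hp, hprs pr hp] at h1
  have h2 : (((l.map (· + 1)).prod : ℕ) : ℝ) ≠ 0 := by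
    rw [Nat.cast_ne_zero]
    refine List.prod_ne_zero ?_
    simp
  exact mul_left_cancel₀ h2 h1

end Pool.Agent.KE5
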