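import Pool.Agent.KE5.Cmp
import Pool.Agent.KEQ.CAN
import Pool.Agent.KEQ.DVC
import Pool.Agent.KEQ.DVS

/-!
# K_0 of K-equivalent varieties
-/

set_option autoImplicit false

open CategoryTheory Cardinal
open Pool.Agent.KEQ (GeoData Geo SameExc Tower Cl cl cl_eq cl_add KEq Fg fg_cancel cl_surj tr tr_cl tr_add
  t_CAN t_DVC t_DVS CAN_Stmt Dvs tf DVC_Stmt)

namespace Pool.Agent.KE5

universe u

variable {G : GeoData} {K : G.V → Type u} [∀ X, AddCommGroup (K X)] {F : ℕ → ∀ X, AddSubgroup (K X)}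
  {ι : Type}

/-! ### Good families -/

theorem good_sub (T : Core G K F ι) (i : ι) : Good T (T.sub i) :=
  ⟨fun f y hy => T.natural.1 f i y hy, fun f x hx => T.natural.2 f i x hx,
    fun _ _ _ _ hφ z => hφ.2.2 i z⟩

theorem good_bot (T : Core G K F ι) : Good T (fun _ => ⊥) := by
  refine ⟨fun f y hy => ?_, fun f x hx => ?_, fun E Z c φ hφ z => ?_⟩
  · rw [AddSubgroup.mem_bot] at hy ⊢
    rw [hy, map_zero]
  · rw [AddSubgroup.mem_bot] at hx ⊢
    rw [hx, map_zero]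
  · simp only [AddSubgroup.mem_bot]
    exact ⟨hφ.2.1 z, fun h => Finset.sum_eq_zero fun t ht => by
      rw [h t (Finset.mem_range.1 ht), map_zero]⟩

theorem good_top (T : Core G K F ι) : Good T (fun _ => ⊤) :=
  ⟨fun _ _ _ => AddSubgroup.mem_top _, fun _ _ _ => AddSubgroup.mem_top _, fun _ _ _ _ _ _ =>
    ⟨fun _ _ _ => AddSubgroup.mem_top _, fun _ => AddSubgroup.mem_top _⟩⟩

theorem good_inf {T : Core G K F ι} {B C : ∀ X, AddSubgroup (K X)} (hB : Good T B) (hC : Good T C) :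
    Good T (fun X => B X ⊓ C X) := by
  refine ⟨fun f y hy => ⟨hB.pull f y hy.1, hC.pull f y hy.2⟩, fun f x hx =>
    ⟨hB.push f x hx.1, hC.push f x hx.2⟩, fun E Z c φ hφ z => ?_⟩
  rw [AddSubgroup.mem_inf, hB.bundle E Z c φ hφ, hC.bundle E Z c φ hφ]
  exact ⟨fun h t ht => ⟨h.1 t ht, h.2 t ht⟩, fun h => ⟨fun t ht => (h t ht).1, fun t ht => (h t ht).2⟩⟩

theorem mem_tors {A : Type u} [AddCommGroup A] {x : A} :
    x ∈ AddCommGroup.torsion A ↔ ∃ n : ℕ, 1 ≤ n ∧ n • x = 0 := by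
  change IsOfFinAddOrder x ↔ _
  rw [isOfFinAddOrder_iff_nsmul_eq_zero]
  exact ⟨fun ⟨n, h1, h2⟩ => ⟨n, h1, h2⟩, fun ⟨n, h1, h2⟩ => ⟨n, h1, h2⟩⟩

theorem good_tors (T : Core G K F ι) : Good T (fun X => AddCommGroup.torsion (K X)) := by
  have hmap : ∀ {A B : Type u} [AddCommGroup A] [AddCommGroup B] (φ : A →+ B) (x : A),
      x ∈ AddCommGroup.torsion A → φ x ∈ AddCommGroup.torsion B := by
    intro A B _ _ φ x hx
    obtain ⟨n, hn, h⟩ := mem_tors.1 hx
    exact mem_tors.2 ⟨n, hn, by rw [← map_nsmul, h, map_zero]⟩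
  refine ⟨fun f y hy => hmap _ y hy, fun f x hx => hmap _ x hx, fun E Z c φ hφ z => ⟨fun h => ?_,
    fun h => AddSubgroup.sum_mem _ fun t ht => hmap _ _ (h t (Finset.mem_range.1 ht))⟩⟩
  obtain ⟨n, hn, h0⟩ := mem_tors.1 h
  have h1 : ∑ t ∈ Finset.range c, φ t (n • z t) = 0 := by
    rw [← h0, Finset.smul_sum]
    exact Finset.sum_congr rfl fun t _ => map_nsmul _ _ _
  intro t ht
  exact mem_tors.2 ⟨n, hn, hφ.2.1 (fun t => n • z t) h1 t ht⟩

/-! ### Cancellation -/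

theorem fg_right {a b : Cl.{u}} (h : Fg (a + b)) : Fg b := by
  obtain ⟨A, _, rfl⟩ := cl_surj a
  obtain ⟨B, _, rfl⟩ := cl_surj b
  obtain ⟨M, _, hM, e⟩ := h
  rw [cl_add, cl_eq] at e
  obtain ⟨e⟩ := e
  refine ⟨B, inferInstance, ?_, rfl⟩
  have : Function.Surjective ((AddMonoidHom.snd A B).comp e.symm.toAddMonoidHom) := by
    intro b
    exact ⟨e (0, b), by simp⟩
  exact Module.Finite.of_surjective (((AddMonoidHom.snd A B).comp e.symm.toAddMonoidHom).toIntLinearMap) this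

theorem cancel_fg {a a' n n' z L L' : Cl.{u}} (h1 : a + L = a' + L') (h2 : z = n + L) (h3 : z = n' + L')
    (hz : Fg z) (hn : Fg n) (he : n = n') : a = a' := by
  have hL : Fg L := fg_right (h2 ▸ hz)
  have h4 : L = L' := by
    refine fg_cancel t_CAN hn (?_ : L + n = L' + n)
    rw [add_comm, ← h2, h3, he, add_comm]
  rw [← h4] at h1
  exact fg_cancel t_CAN hL h1

theorem qt_top (B : ∀ X, AddSubgroup (K X)) (X : G.V) :
    Nonempty (Qt B (fun _ => ⊤) X ≃+ (K X ⧸ B X)) := by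
  refine ⟨QuotientAddGroup.congr _ _ AddSubgroup.topEquiv ?_⟩
  ext x
  rw [AddSubgroup.mem_map]
  constructor
  · rintro ⟨y, hy, rfl⟩
    exact AddSubgroup.mem_addSubgroupOf.1 hy
  · intro hx
    exact ⟨⟨x, AddSubgroup.mem_top x⟩, AddSubgroup.mem_addSubgroupOf.2 hx, rfl⟩

theorem qt_bot (C : ∀ X, AddSubgroup (K X)) (X : G.V) : Nonempty (Qt (fun _ => ⊥) C X ≃+ C X) := by
  have h : (⊥ : AddSubgroup (K X)).addSubgroupOf (C X) = ⊥ := by
    ext x
    rw [AddSubgroup.mem_addSubgroupOf, AddSubgroup.mem_bot, AddSubgroup.mem_bot]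
    exact ⟨fun h => Subtype.ext h, fun h => congrArg Subtype.val h⟩
  exact ⟨(QuotientAddGroup.quotientAddEquivOfEq h).trans QuotientAddGroup.quotientBot⟩

/-- The comparison of the quotients by `B` when the quotients by `H` are finitely generated. -/
theorem compare_fg (hFGU : S_FGU.{u}) (T : Core G K F ι) {B H : ∀ X, AddSubgroup (K X)} (hB : Good T B)
    (hH : Good T H) (hBH : ∀ X, B X ≤ H X) (hfg : ∀ X, Module.Finite ℤ (K X ⧸ H X)) {q : ℕ}
    (hq : ∀ (V : G.V), ∀ x ∈ H V, ∃ b ∈ B V, x - b ∈ F q V) {X Y : G.V}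
    (hD : ∀ (V : G.V), G.dim V + 2 ≤ G.dim X → ∀ x ∈ H V, x ∈ F (q + 2) V → x ∈ B V)
    (h : KEq G X Y) : Nonempty ((K X ⧸ B X) ≃+ (K Y ⧸ B Y)) := by
  have hKE := h
  obtain ⟨Z, f, g, hf, hg, hK⟩ := h
  obtain ⟨L, L', h1, h2, h3⟩ := compare hB hH (good_top T) hBH (fun _ => le_top) hq hD f g hf hg
    (T.same_exc f g hf hg hK) rfl
  have hfg' : ∀ X, Module.Finite ℤ (Qt H (fun _ => ⊤) X) := by
    intro X
    have := hfg X
    obtain ⟨e⟩ := qt_top H X
    exact Module.Finite.equiv e.symm.toIntLinearEquiv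
  have hFg : ∀ X, Fg (cl (Qt H (fun _ => ⊤) X)) := fun X => ⟨_, _, hfg' X, rfl⟩
  have h4 := cancel_fg h1 h2 h3 (hFg Z) (hFg X)
    (hFGU G K F ι T H (fun _ => ⊤) hH (good_top T) (fun _ => le_top) hfg' X Y hKE)
  obtain ⟨e⟩ := cl_eq.1 h4
  obtain ⟨eX⟩ := qt_top B X
  obtain ⟨eY⟩ := qt_top B Y
  exact ⟨(eX.symm.trans e).trans eY⟩

/-- K-equivalent varieties of dimension at most four. -/
theorem small_main (hFGU : S_FGU.{u}) (T : SmallTheory G K F) (X Y : G.V) (h : KEq G X Y)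
    (hd : G.dim X ≤ 4) : Nonempty (K X ≃+ K Y) := by
  obtain ⟨e⟩ := compare_fg hFGU T.toCore (B := fun _ => ⊥) (H := T.sub ()) (good_bot _) (good_sub _ _)
    (fun _ => bot_le) T.fg (q := 1)
    (fun V x hx => ⟨0, AddSubgroup.zero_mem _, by rw [sub_zero]; exact T.rank V x hx⟩)
    (fun V hV x _ hx => by rwa [T.filtration.1 V (1 + 2) (by omega)] at hx) h
  exact ⟨(QuotientAddGroup.quotientBot.symm.trans e).trans QuotientAddGroup.quotientBot⟩

/-! ### Dimension five and six -/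

/-- `K_0` modulo algebraic equivalence, dimension at most six. -/
theorem mod_alg (hFGU : S_FGU.{u}) (T : FullTheory G K F) (X Y : G.V) (h : KEq G X Y)
    (hd : G.dim X ≤ 6) : Nonempty ((K X ⧸ T.sub .alg X) ≃+ (K Y ⧸ T.sub .alg Y)) := by
  refine compare_fg hFGU T.toCore (B := T.sub .alg) (H := T.sub .hom) (good_sub _ _) (good_sub _ _)
    (fun X => (T.incl X).1) (fun X => (T.finite X).1) (q := 2) T.lineBundles (fun V hV x hx hF => ?_) h
  rcases Nat.lt_or_ge (G.dim V) 4 with h4 | h4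
  · rw [T.filtration.1 V (2 + 2) h4, AddSubgroup.mem_bot] at hF
    rw [hF]
    exact AddSubgroup.zero_mem _
  · have h5 : G.dim V = 4 := by omega
    exact T.points V x hx (by rw [h5]; exact hF)

/-- The torsion of the algebraically trivial classes. -/
abbrev At (T : FullTheory G K F) (X : G.V) : AddSubgroup (K X) := T.torsAlg X

theorem good_At (T : FullTheory G K F) : Good T.toCore (At T) :=
  good_inf (good_sub T.toCore .alg) (good_tors T.toCore)

theorem tr_alg (T : FullTheory G K F) (X : G.V) (p : ℕ) (hp : 1 ≤ p) :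
    tr p (cl (Qt (fun _ => ⊥) (At T) X)) = #{x : T.sub .alg X // p • x = 0} := by
  obtain ⟨e⟩ := qt_bot (At T) X
  rw [cl_eq.2 ⟨e⟩, tr_cl]
  refine Cardinal.mk_congr ⟨fun x => ⟨⟨x.1.1, x.1.2.1⟩, ?_⟩, fun x => ⟨⟨x.1.1, x.1.2, ?_⟩, ?_⟩,
    fun x => rfl, fun x => rfl⟩
  · have h := congrArg Subtype.val x.2
    exact Subtype.ext h
  · have h := congrArg Subtype.val x.2
    exact mem_tors.2 ⟨p, hp, h⟩
  · have h := congrArg Subtype.val x.2
    exact Subtype.ext h

theorem tr_eq (hTOR : S_TOR.{u}) (T : FullTheory G K F) (X Y : G.V) (h : KEq G X Y) (hd : G.dim X ≤ 6)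
    (p : ℕ) (hp : 1 ≤ p) : #{x : T.sub .alg X // p • x = 0} = #{x : T.sub .alg Y // p • x = 0} := by
  have hKE := h
  obtain ⟨Z, f, g, hf, hg, hK⟩ := h
  have hTA : ∀ X, T.sub .tor X ≤ At T X := fun X x hx => (T.incl X).2 x hx
  obtain ⟨L, L', h1, h2, h3⟩ := compare (q := 3) (good_bot T.toCore) (good_sub T.toCore .tor)
    (good_At T) (fun _ => bot_le) hTA
    (fun V x hx => ⟨0, AddSubgroup.zero_mem _, by rw [sub_zero]; exact T.codimTwo V x hx⟩)
    (fun V hV x _ hx => by rwa [T.filtration.1 V (3 + 2) (by omega)] at hx) f g hf hg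
    (T.same_exc f g hf hg hK) rfl
  have hfin : ∀ X, Finite {x : Qt (T.sub .tor) (At T) X // p • x = 0} := fun X => (T.finite X).2 p hp
  have hne : ∀ X, tr p (cl (Qt (T.sub .tor) (At T) X)) ≠ 0 := by
    intro X
    rw [tr_cl, Cardinal.mk_ne_zero_iff]
    exact ⟨⟨0, smul_zero p⟩⟩
  have hlt : ∀ X, tr p (cl (Qt (T.sub .tor) (At T) X)) < ℵ₀ := by
    intro X
    have := hfin X
    rw [tr_cl]
    exact Cardinal.mk_lt_aleph0
  have hXY : tr p (cl (Qt (T.sub .tor) (At T) X)) = tr p (cl (Qt (T.sub .tor) (At T) Y)) := by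
    have h4 := hTOR G K F Kind T.toCore (T.sub .tor) (At T) (good_sub T.toCore .tor) (good_At T) hTA p
      hfin X Y hKE
    rw [tr_cl, tr_cl]
    have := hfin X
    have := hfin Y
    rw [← Nat.cast_card, ← Nat.cast_card, h4]
  have h5 := congrArg (tr p) h2
  have h6 := congrArg (tr p) h3
  rw [tr_add] at h5 h6
  have hL0 : tr p L ≠ 0 := fun h0 => hne Z (by rw [h5, h0, mul_zero])
  have hL'0 : tr p L' ≠ 0 := fun h0 => hne Z (by rw [h6, h0, mul_zero])
  have hLlt : tr p L < ℵ₀ := by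
    refine lt_of_le_of_lt ?_ (hlt Z)
    rw [h5]
    exact le_mul_of_one_le_left zero_le (Cardinal.one_le_iff_ne_zero.2 (hne X))
  have hL'lt : tr p L' < ℵ₀ := by
    refine lt_of_le_of_lt ?_ (hlt Z)
    rw [h6]
    exact le_mul_of_one_le_left zero_le (Cardinal.one_le_iff_ne_zero.2 (hne Y))
  obtain ⟨l, hl⟩ := Cardinal.lt_aleph0.1 hLlt
  obtain ⟨l', hl'⟩ := Cardinal.lt_aleph0.1 hL'lt
  obtain ⟨m, hm⟩ := Cardinal.lt_aleph0.1 (hlt X)
  have hm0 : m ≠ 0 := by
    rintro rfl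
    exact hne X (by rw [hm, Nat.cast_zero])
  have hll : l = l' := by
    have h7 : tr p (cl (Qt (T.sub .tor) (At T) X)) * tr p L =
        tr p (cl (Qt (T.sub .tor) (At T) X)) * tr p L' := by
      rw [← h5, h6, hXY]
    rw [hm, hl, hl'] at h7
    have h8 : m * l = m * l' := by exact_mod_cast h7
    exact Nat.eq_of_mul_eq_mul_left (Nat.pos_of_ne_zero hm0) h8
  have hl0 : l ≠ 0 := by
    rintro rfl
    exact hL0 (by rw [hl, Nat.cast_zero])
  have h9 := congrArg (tr p) h1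
  rw [tr_add, tr_add, hl, hl', ← hll, tr_alg T X p hp, tr_alg T Y p hp] at h9
  -- cancel the finite factor
  have key : ∀ a b : Cardinal.{u}, a * l = b * l → a < ℵ₀ → a = b := by
    intro a b h ha
    have hb : b < ℵ₀ := by
      refine lt_of_le_of_lt (b := b * l) ?_ ?_
      · exact le_mul_of_one_le_right zero_le (by exact_mod_cast Nat.one_le_iff_ne_zero.2 hl0)
      · rw [← h]
        exact Cardinal.mul_lt_aleph0 ha (Cardinal.natCast_lt_aleph0)
    obtain ⟨a, rfl⟩ := Cardinal.lt_aleph0.1 ha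
    obtain ⟨b, rfl⟩ := Cardinal.lt_aleph0.1 hb
    have h1 : a * l = b * l := by exact_mod_cast h
    rw [Nat.eq_of_mul_eq_mul_right (Nat.pos_of_ne_zero hl0) h1]
  rcases lt_or_ge #{x : T.sub .alg X // p • x = 0} ℵ₀ with ha | ha
  · exact key _ _ h9 ha
  · rcases lt_or_ge #{x : T.sub .alg Y // p • x = 0} ℵ₀ with hb | hb
    · exact (key _ _ h9.symm hb).symm
    · rwa [Cardinal.mul_eq_left ha ((Cardinal.natCast_lt_aleph0).le.trans ha) (by exact_mod_cast hl0),
        Cardinal.mul_eq_left hb ((Cardinal.natCast_lt_aleph0).le.trans hb) (by exact_mod_cast hl0)] at h9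

/-- Dimension at most five: vanishing of the algebraically trivial classes. -/
theorem alg_zero (hMOT : S_MOT) (T : FullTheory G K F) (X Y : G.V) (h : KEq G X Y) (hd : G.dim X ≤ 5)
    (h0 : T.sub .alg X = ⊥) : T.sub .alg Y = ⊥ := by
  have hh : T.h X = T.h Y := by
    have h1 := hMOT G T.toGeo T.motivic (fun X => (T.h X : ℝ)) (fun X Y e => by rw [T.hodge.1 X Y e])
      (fun P X a hP => by rw [T.hodge.2.1 P X a hP]; push_cast; ring)
      (fun β j c hb => by
        obtain ⟨h1, h2⟩ := T.hodge.2.2 β j c hb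
        exact ⟨by rw [h1]; push_cast; ring, by rw [h2]; push_cast; ring⟩) X Y h
    exact_mod_cast h1
  obtain ⟨Z, f, g, hf, hg, hK⟩ := h
  have hZ : G.dim Z = G.dim X := T.birs.2.2 f hf
  have hY : G.dim Y = G.dim X := (T.birs.2.2 g hg).symm.trans hZ
  have hE := T.same_exc f g hf hg hK
  have hE' : SameExc G g f := fun D i hi => (hE D i hi).symm
  refine T.diagonal.2 Y (by omega) (by rw [← hh]; exact T.diagonal.1 X h0) ?_
  have hm : Mov T.toCore (G.dim Y) (fun V => F (G.dim Y - 1) V) (fun _ => ⊥) := by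
    refine ⟨fun f y _ _ hy => T.filtration.2.1 f _ y hy, fun f x hf _ hx =>
      T.filtration.2.2 f _ _ x (by rw [T.birs.2.2 f hf]) hx, fun g x hn hg hx => ?_⟩
    obtain ⟨W', V, τ, h, i, hτ, he, hd⟩ := T.images g hg
    have h1 : T.pull g x = T.push τ (T.pull h (T.pull i x)) := by
      rw [← T.functorial.2.1, ← he, T.functorial.2.1, T.functorial.2.2.2 _ _ hτ]
    have h2 := T.filtration.2.1 i _ x hx
    rw [T.filtration.1 V _ (by omega), AddSubgroup.mem_bot] at h2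
    rw [h1, h2, map_zero, map_zero]
    exact AddSubgroup.zero_mem _
  rw [eq_bot_iff]
  rintro y ⟨hy, hyF⟩
  have h2 := canon (good_bot T.toCore) hm g f hg hf hE' rfl y hyF
  rw [AddSubgroup.mem_bot, sub_eq_zero] at h2
  have h3 : T.push f (T.pull g y) ∈ T.sub .alg X :=
    T.natural.2 f .alg _ (T.natural.1 g .alg y hy)
  rw [h0, AddSubgroup.mem_bot] at h3
  rw [h3, map_zero] at h2
  rw [AddSubgroup.mem_bot, ← T.functorial.2.2.2 g y hg, h2, map_zero]

theorem alg_iso (hTOR : S_TOR.{u}) (T : FullTheory G K F) (X Y : G.V) (h : KEq G X Y)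
    (hd : G.dim X ≤ 6) (hX : T.sub .alg X ≠ ⊥) (hY : T.sub .alg Y ≠ ⊥) :
    Nonempty (T.sub .alg X ≃+ T.sub .alg Y) := by
  have hdv : ∀ X, Dvs (T.sub .alg X) := by
    intro X n x hn
    obtain ⟨y, hy, h1⟩ := (T.jacobians X).1 n x.1 hn x.2
    exact ⟨⟨y, hy⟩, Subtype.ext h1⟩
  exact t_DVC t_DVS _ _ (hdv X) (hdv Y)
    (fun p hp => tr_eq hTOR T X Y h hd p hp.one_lt.le)
    ((T.jacobians X).2.resolve_left hX) ((T.jacobians Y).2.resolve_left hY)

theorem KEq.symm' {X Y : G.V} (h : KEq G X Y) : KEq G Y X := Pool.Agent.KEQ.KEq.symm h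

/-- Divisible subgroups are direct summands, with the projection to the quotient. -/
theorem dvs_split (M : Type u) [AddCommGroup M] (A : AddSubgroup M) (hA : Dvs A) :
    ∃ e : M ≃+ (A × (M ⧸ A)), ∀ x, x ∈ A ↔ (e x).2 = 0 := by
  have hinj : Function.Injective A.subtype := A.subtype_injective
  obtain ⟨r, hr⟩ := (Pool.Agent.KEQ.LDVS.baer A hA).extension_property_addMonoidHom A.subtype hinj
    (AddMonoidHom.id A)
  have hr' : ∀ a : A, r (a : M) = a := fun a => DFunLike.congr_fun hr a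
  refine ⟨AddEquiv.ofBijective (r.prod (QuotientAddGroup.mk' A)) ⟨?_, ?_⟩, fun x => ?_⟩
  · rw [injective_iff_map_eq_zero]
    intro x hx
    rw [AddMonoidHom.prod_apply, Prod.mk_eq_zero] at hx
    have hxA : x ∈ A := (QuotientAddGroup.eq_zero_iff x).mp hx.2
    have h1 := hr' ⟨x, hxA⟩
    rw [hx.1] at h1
    exact (congrArg Subtype.val h1).symm
  · rintro ⟨a, q⟩
    obtain ⟨y, rfl⟩ := QuotientAddGroup.mk_surjective q
    refine ⟨y + ((a - r y : A) : M), ?_⟩
    rw [AddMonoidHom.prod_apply]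
    refine Prod.ext ?_ ?_
    · change r (y + ((a - r y : A) : M)) = a
      rw [map_add, hr']
      abel
    · change QuotientAddGroup.mk (y + ((a - r y : A) : M)) = QuotientAddGroup.mk y
      rw [QuotientAddGroup.eq]
      have h2 : -(y + ((a - r y : A) : M)) + y = -((a - r y : A) : M) := by abel
      rw [h2]
      exact A.neg_mem (a - r y : A).2
  · exact (QuotientAddGroup.eq_zero_iff x).symm

/-- The main theorem. -/
theorem full_main (hFGU : S_FGU.{u}) (hTOR : S_TOR.{u}) (hMOT : S_MOT) (T : FullTheory G K F)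
    (X Y : G.V) (h : KEq G X Y) (hd : G.dim X ≤ 5 ∨ (G.dim X = 6 ∧ T.h X ≠ 0)) :
    ∃ e : K X ≃+ K Y, ∀ x, x ∈ T.sub .alg X ↔ e x ∈ T.sub .alg Y := by
  have hd6 : G.dim X ≤ 6 := by omega
  have hYX : G.dim Y = G.dim X := by
    obtain ⟨Z, f, g, hf, hg, hK⟩ := h
    exact (T.birs.2.2 g hg).symm.trans (T.birs.2.2 f hf)
  have hh : T.h X = T.h Y := by
    have h1 := hMOT G T.toGeo T.motivic (fun X => (T.h X : ℝ)) (fun X Y e => by rw [T.hodge.1 X Y e])
      (fun P X a hP => by rw [T.hodge.2.1 P X a hP]; push_cast; ring)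
      (fun β j c hb => by
        obtain ⟨h1, h2⟩ := T.hodge.2.2 β j c hb
        exact ⟨by rw [h1]; push_cast; ring, by rw [h2]; push_cast; ring⟩) X Y h
    exact_mod_cast h1
  have ha : Nonempty (T.sub .alg X ≃+ T.sub .alg Y) := by
    by_cases h0 : T.sub .alg X = ⊥
    · have hd5 : G.dim X ≤ 5 := by
        rcases hd with hd | hd
        · exact hd
        · exact absurd (T.diagonal.1 X h0) hd.2
      have h1 := alg_zero hMOT T X Y h hd5 h0
      rw [h0, h1]
      exact ⟨⟨⟨fun _ => 0, fun _ => 0, fun x => Subsingleton.elim _ _, fun x => Subsingleton.elim _ _⟩,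
        fun x y => by simp⟩⟩
    · refine alg_iso hTOR T X Y h hd6 h0 fun h1 => h0 ?_
      rcases hd with hd | hd
      · exact alg_zero hMOT T Y X (KEq.symm' h) (by omega) h1
      · exact absurd (T.diagonal.1 Y h1) (by rw [← hh]; exact hd.2)
  have hdv : ∀ X, Dvs (T.sub .alg X) := by
    intro X n x hn
    obtain ⟨y, hy, h1⟩ := (T.jacobians X).1 n x.1 hn x.2
    exact ⟨⟨y, hy⟩, Subtype.ext h1⟩
  obtain ⟨a⟩ := ha
  obtain ⟨s⟩ := mod_alg hFGU T X Y h hd6
  obtain ⟨eX, hX⟩ := dvs_split (K X) (T.sub .alg X) (hdv X)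
  obtain ⟨eY, hY⟩ := dvs_split (K Y) (T.sub .alg Y) (hdv Y)
  refine ⟨(eX.trans (a.prodCongr s)).trans eY.symm, fun x => ?_⟩
  rw [hX, hY]
  change _ ↔ (eY (eY.symm (a (eX x).1, s (eX x).2))).2 = 0
  rw [eY.apply_symm_apply]
  exact (map_eq_zero_iff s s.injective).symm

end Pool.Agent.KE5
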