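import Pool.Agent.KEQ.Theory

/-!
# K_0 of K-equivalent varieties: the published facts that are assumed

`GeoData`, `Geo`, `SameExc`, `KEq`, `Msr` and `Motivic` are those of `Pool/Agent/KEQ/Theory.lean`. `K X` is the
Grothendieck group `K_0(X)` of coherent sheaves and `F p X` is the subgroup of the classes of the coherent sheaves
with support of codimension at least `p` (real definitions in `Pool/Agent/KEQ/Real.lean`, `Pool/Agent/KE5/Real.lean`).
-/

set_option autoImplicit false

open CategoryTheory Cardinal
open Pool.Agent.KEQ (GeoData Geo Motivic Msr)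

namespace Pool.Agent.KE5

universe u

/-- Pull-backs and push-forwards on `K X = K_0(X)`, and subgroups of `K_0`, with names in the set `ι`. -/
structure KData (G : GeoData) (K : G.V → Type u) [∀ X, AddCommGroup (K X)] (ι : Type) where
  /-- the derived pull-back -/
  pull : ∀ {X Y : G.V}, (X ⟶ Y) → (K Y →+ K X)
  /-- the derived push-forward -/
  push : ∀ {X Y : G.V}, (X ⟶ Y) → (K X →+ K Y)
  /-- the subgroups -/
  sub : ι → ∀ X, AddSubgroup (K X)

namespace KData

variable {G : GeoData} {K : G.V → Type u} [∀ X, AddCommGroup (K X)] {ι : Type} (D : KData G K ι)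

/-- Functoriality, and the projection formula with `R f_* O = O` for birational morphisms (Hironaka). -/
def Functorial : Prop := (∀ (X : G.V) (x : K X), D.pull (𝟙 X) x = x) ∧
  (∀ {X Y Z : G.V} (f : X ⟶ Y) (g : Y ⟶ Z) (z : K Z), D.pull (f ≫ g) z = D.pull f (D.pull g z)) ∧
  (∀ {X Y Z : G.V} (f : X ⟶ Y) (g : Y ⟶ Z) (x : K X), D.push (f ≫ g) x = D.push g (D.push f x)) ∧
  ∀ {X Y : G.V} (f : X ⟶ Y) (y : K Y), G.bir f → D.push f (D.pull f y) = y

/-- The subgroups are natural. -/
def Natural : Prop :=
  (∀ {X Y : G.V} (f : X ⟶ Y) (i : ι) (y : K Y), y ∈ D.sub i Y → D.pull f y ∈ D.sub i X) ∧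
  ∀ {X Y : G.V} (f : X ⟶ Y) (i : ι) (x : K X), x ∈ D.sub i X → D.push f x ∈ D.sub i Y

/-- The filtration by the codimension of the support: pull-back (Chow's moving lemma) and push-forward. -/
def Filtration (F : ℕ → ∀ X, AddSubgroup (K X)) : Prop :=
  (∀ (X : G.V) (p : ℕ), G.dim X < p → F p X = ⊥) ∧
  (∀ {X Y : G.V} (f : X ⟶ Y) (p : ℕ) (y : K Y), y ∈ F p Y → D.pull f y ∈ F p X) ∧
  ∀ {X Y : G.V} (f : X ⟶ Y) (p q : ℕ) (x : K X), q + G.dim X ≤ p + G.dim Y → x ∈ F p X →
    D.push f x ∈ F q Y

/-- The projective bundle formula for a projective bundle `π : E ⟶ Z` with fibres `P^(c-1)`, with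
`φ t z = π^* z ⊗ O(-t)`: every class on `E` is uniquely `∑_(t < c) φ t (z t)`; the same for the subgroups. -/
def Bundle (E Z : G.V) (c : ℕ) (φ : ℕ → (K Z →+ K E)) : Prop :=
  (∀ w : K E, ∃ z : ℕ → K Z, w = ∑ t ∈ Finset.range c, φ t (z t)) ∧
  (∀ z : ℕ → K Z, ∑ t ∈ Finset.range c, φ t (z t) = 0 → ∀ t < c, z t = 0) ∧
  ∀ (i : ι) (z : ℕ → K Z), ∑ t ∈ Finset.range c, φ t (z t) ∈ D.sub i E ↔ ∀ t < c, z t ∈ D.sub i Z

/-- The formula for blow-ups (SGA 6, Thomason, Orlov) with `φ t z = π^* z ⊗ O(-t)` on the exceptional divisor: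
projective bundle formula, self-intersection formula `j^* j_* e = e - e ⊗ O(1)`, `β_* j_* φ_t = 0` for
`0 < t < c`, and `K_0(X') = β^* K_0(X) + ∑_(0 < t < c) j_* φ_t K_0(Z)`. -/
def BlowUps : Prop := ∀ {X' X E Z : G.V} (β : X' ⟶ X) (j : E ⟶ X') (c : ℕ), G.blow β j Z c →
  ∃ φ : ℕ → (K Z →+ K E), D.Bundle E Z c φ ∧
    (∀ (t : ℕ) (z : K Z), D.pull j (D.push j (φ (t + 1) z)) = φ (t + 1) z - φ t z) ∧
    (∀ (t : ℕ) (z : K Z), t + 1 < c → D.push β (D.push j (φ (t + 1) z)) = 0) ∧
    ∀ w : K X', ∃ (x : K X) (z : ℕ → K Z),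
      w = D.pull β x + ∑ t ∈ Finset.range (c - 1), D.push j (φ (t + 1) (z t))

end KData

/-- Resolution of the image of a morphism and of its graph (Hironaka 1964): the image has codimension at least two. -/
def Images (G : GeoData) : Prop := ∀ {W Y : G.V} (s : W ⟶ Y), G.small s →
  ∃ (W' V : G.V) (τ : W' ⟶ W) (h : W' ⟶ V) (i : V ⟶ Y), G.bir τ ∧ τ ≫ s = h ≫ i ∧ G.dim V + 2 ≤ G.dim Y

/-- Facts on the Grothendieck groups `K X = K_0(X)`, on natural subgroups, and on the subgroups `F p X` of the classes
with support of codimension at least `p`. -/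
structure Core (G : GeoData) (K : G.V → Type u) [∀ X, AddCommGroup (K X)]
    (F : ℕ → ∀ X, AddSubgroup (K X)) (ι : Type) extends Geo G, KData G K ι where
  images : Images G
  functorial : toKData.Functorial
  natural : toKData.Natural
  filtration : toKData.Filtration F
  blowUps : toKData.BlowUps
  bundles : ∀ (P X : G.V) (a : ℕ), G.prod P X a → ∃ φ : ℕ → (K X →+ K P), toKData.Bundle P X (a + 1) φ
  motivic : Motivic G

/-- The facts used in dimension at most four: `sub () X` is the subgroup of the classes in `K_0(X)` that vanish in the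
topological K-theory of the complex manifold `X`. Such a class has rank zero, so its support has positive codimension,
and topological K-theory is finitely generated. -/
structure SmallTheory (G : GeoData) (K : G.V → Type u) [∀ X, AddCommGroup (K X)]
    (F : ℕ → ∀ X, AddSubgroup (K X)) extends Core G K F Unit where
  rank : ∀ (X : G.V) (x : K X), x ∈ sub () X → x ∈ F 1 X
  fg : ∀ X : G.V, Module.Finite ℤ (K X ⧸ sub () X)

/-- Names for three natural subgroups of `K_0(X)`:
* `hom`: the classes that vanish in the topological K-theory of the complex manifold `X`;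
* `alg`: the algebraically trivial classes, generated by the differences `x_s - x_t`, where `x` is a class on `C × X`,
  `C` a smooth projective curve and `s`, `t` points of `C`;
* `tor`: the torsion classes in `alg` that vanish in the topological K-theory with coefficients `ℚ / ℤ` (kernel of
  Bloch's map). -/
inductive Kind
  | tor
  | alg
  | hom

namespace KData

variable {G : GeoData} {K : G.V → Type u} [∀ X, AddCommGroup (K X)] (D : KData G K Kind)

/-- The inclusions. -/
def Inclusions : Prop := ∀ X : G.V, D.sub .alg X ≤ D.sub .hom X ∧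
  ∀ x ∈ D.sub .tor X, x ∈ D.sub .alg X ∧ x ∈ AddCommGroup.torsion (K X)

/-- A line bundle whose Chern class vanishes is algebraically trivial, so a class in `hom` is the sum of one in `alg`
and of one with support of codimension two. -/
def LineBundles (F : ℕ → ∀ X, AddSubgroup (K X)) : Prop :=
  ∀ X : G.V, ∀ x ∈ D.sub .hom X, ∃ a ∈ D.sub .alg X, x - a ∈ F 2 X

/-- A zero-cycle of degree zero is algebraically trivial. -/
def Points (F : ℕ → ∀ X, AddSubgroup (K X)) : Prop :=
  ∀ X : G.V, ∀ x ∈ D.sub .hom X, x ∈ F (G.dim X) X → x ∈ D.sub .alg X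

/-- Bloch's map is injective on torsion in codimension one (Kummer) and two (Merkurjev and Suslin 1982), so a class
in `tor` has support of codimension three. -/
def CodimTwo (F : ℕ → ∀ X, AddSubgroup (K X)) : Prop := ∀ X : G.V, ∀ x ∈ D.sub .tor X, x ∈ F 3 X

/-- The torsion of `alg`. -/
def torsAlg (X : G.V) : AddSubgroup (K X) := D.sub .alg X ⊓ AddCommGroup.torsion (K X)

/-- The image of the torsion of `alg` in the topological K-theory with coefficients `ℚ / ℤ`. -/
def TorsQuot (X : G.V) : Type u := ↥(D.torsAlg X) ⧸ (D.sub .tor X).addSubgroupOf (D.torsAlg X)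

instance (X : G.V) : AddCommGroup (D.TorsQuot X) := QuotientAddGroup.Quotient.addCommGroup _

/-- Topological K-theory is finitely generated; with coefficients `ℚ / ℤ` it has finite `n`-torsion. -/
def FiniteQuotients : Prop := ∀ X : G.V, Module.Finite ℤ (K X ⧸ D.sub .hom X) ∧
  ∀ n : ℕ, 1 ≤ n → Finite {x : D.TorsQuot X // n • x = 0}

/-- Algebraically trivial classes come from Jacobians of curves, so they are divisible, and if there
are nonzero ones then their rank is uncountable (Mumford, Roitman: the kernel of a family of classes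
is a countable union of closed subsets). -/
def Jacobians : Prop := ∀ X : G.V,
  (∀ (n : ℕ) (x : K X), 1 ≤ n → x ∈ D.sub .alg X → ∃ y ∈ D.sub .alg X, n • y = x) ∧
    (D.sub .alg X = ⊥ ∨ #(D.sub .alg X ⧸ AddCommGroup.torsion (D.sub .alg X)) = 𝔠)

/-- Decomposition of the diagonal (Bloch and Srinivas 1983, Esnault and Levine 1993, Jannsen 1994, Laterveer 1998);
`h X` is the sum of the Hodge numbers `h^(p,q)` with `p ≠ q`. If there are no nonzero algebraically trivial classes then
the cohomology is algebraic, so `h X = 0`. In dimension at most five, if `h X = 0` and there are no nonzero algebraically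
trivial classes with support of dimension at most one, then there are none at all. -/
def Diagonal (F : ℕ → ∀ X, AddSubgroup (K X)) (h : G.V → ℕ) : Prop :=
  (∀ X : G.V, D.sub .alg X = ⊥ → h X = 0) ∧
    ∀ X : G.V, G.dim X ≤ 5 → h X = 0 → D.sub .alg X ⊓ F (G.dim X - 1) X = ⊥ → D.sub .alg X = ⊥

end KData

/-- The Hodge numbers (sum `h` of the `h^(p,q)` with `p ≠ q`) of isomorphic varieties, of products with `P^a`, of
blow-ups and of exceptional divisors. -/
def HodgeNumbers (G : GeoData) (h : G.V → ℕ) : Prop := (∀ X Y : G.V, Nonempty (X ≅ Y) → h X = h Y) ∧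
  (∀ (P X : G.V) (a : ℕ), G.prod P X a → h P = (a + 1) * h X) ∧
  ∀ {X' X E Z : G.V} (β : X' ⟶ X) (j : E ⟶ X') (c : ℕ), G.blow β j Z c →
    h X' = h X + (c - 1) * h Z ∧ h E = c * h Z

/-- The facts used in dimension five and six. -/
structure FullTheory (G : GeoData) (K : G.V → Type u) [∀ X, AddCommGroup (K X)]
    (F : ℕ → ∀ X, AddSubgroup (K X)) extends Core G K F Kind where
  /-- the sum of the Hodge numbers `h^(p,q)` with `p ≠ q` -/
  h : G.V → ℕ
  incl : toKData.Inclusions
  lineBundles : toKData.LineBundles F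
  points : toKData.Points F
  codimTwo : toKData.CodimTwo F
  finite : toKData.FiniteQuotients
  jacobians : toKData.Jacobians
  diagonal : toKData.Diagonal F h
  hodge : HodgeNumbers G h

end Pool.Agent.KE5
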