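import Pool.Agent.KEQ.Real
import Pool.Agent.KE5.Theory

/-!
# The filtration of `K_0` of a smooth projective complex variety by the codimension of the support
-/

set_option autoImplicit false

open CategoryTheory AlgebraicGeometry
open Pool.Agent.KEQ (SPV K0 Coh)

namespace Pool.Agent.KE5

/-- The subgroup of the classes of the coherent sheaves with support of codimension at least `p`: the support is
contained in a closed set all of whose points have codimension at least `p`. -/
def Fil (p : ℕ) (X : SPV) : AddSubgroup (K0 X) :=
  AddSubgroup.closure {r | ∃ M : Coh X, r = QuotientAddGroup.mk (FreeAbelianGroup.of M) ∧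
    ∃ C : Set X.X, IsClosed C ∧ (∀ x ∈ C, (p : ℕ∞) ≤ Order.coheight x) ∧
      ∀ U : X.X.Opens, Disjoint (U : Set X.X) C → Subsingleton Γ(M.1, U)}

end Pool.Agent.KE5
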