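import Pool.Agent.KE5.Theory
import Pool.Agent.KEQ.Gr

/-!
# K_0 of K-equivalent varieties: statements of the modules, with proofs in words
-/

set_option autoImplicit false

open CategoryTheory Cardinal
open Pool.Agent.KEQ (GeoData Geo Motivic Msr KEq SameExc Cl cl Tower)

namespace Pool.Agent.KE5

universe u

variable {G : GeoData} {K : G.V → Type u} [∀ X, AddCommGroup (K X)] {F : ℕ → ∀ X, AddSubgroup (K X)}
  {ι : Type}

/-- A family of subgroups that behaves like the named ones. -/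
structure Good (T : Core G K F ι) (B : ∀ X, AddSubgroup (K X)) : Prop where
  pull : ∀ {X Y : G.V} (f : X ⟶ Y) (y : K Y), y ∈ B Y → T.pull f y ∈ B X
  push : ∀ {X Y : G.V} (f : X ⟶ Y) (x : K X), x ∈ B X → T.push f x ∈ B Y
  bundle : ∀ (E Z : G.V) (c : ℕ) (φ : ℕ → (K Z →+ K E)), T.Bundle E Z c φ → ∀ z : ℕ → K Z,
    (∑ t ∈ Finset.range c, φ t (z t) ∈ B E ↔ ∀ t < c, z t ∈ B Z)

/-- The quotient `C X / B X`. -/
abbrev Qt (B C : ∀ X, AddSubgroup (K X)) (X : G.V) : Type u := ↥(C X) ⧸ (B X).addSubgroupOf (C X)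

/-- MOT. Additive invariants with values in `ℝ` take the same value on K-equivalent varieties. Proof. As
`hodge_iso` in `Pool/Agent/KEQ/Bit.lean`: `Msr G μ`, and `μ (l.foldl pr X) = (∏ (a + 1)) * μ X`. -/
def S_MOT : Prop := ∀ (G : GeoData), Geo G → Motivic G → ∀ μ : G.V → ℝ,
  (∀ X Y : G.V, Nonempty (X ≅ Y) → μ X = μ Y) →
  (∀ (P X : G.V) (a : ℕ), G.prod P X a → μ P = ((a + 1 : ℕ) : ℝ) * μ X) →
  (∀ {X' X E Z : G.V} (β : X' ⟶ X) (j : E ⟶ X') (c : ℕ), G.blow β j Z c →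
    μ X' = μ X + ((c - 1 : ℕ) : ℝ) * μ Z ∧ μ E = (c : ℝ) * μ Z) →
  ∀ X Y : G.V, KEq G X Y → μ X = μ Y

/-- MEA. The class of `Qt B C` is additive. Proof. For a bundle: `(Fin c → C Z) → C E`, `z ↦ ∑ φ t (z t)` is bijective
with `∑ ∈ B E ↔ ∀ t, z t ∈ B Z`. For a blow-up: `(x, z) ↦ β^* x + ∑_(t < c-1) j_* φ (t+1) (z t)` is a bijection
`C X × (Fin (c-1) → C Z) → C X'` which respects `B`: if `w = β^* x + ∑ ..` is in `B X'` (or `C X'`) then `x = β_* w`
is in `B X`, so the sum is in `B X'`, its pull-back under `j` is `∑ φ (t+1) (z t) - φ t (z t)`, in `B E`; by `bundle` with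
the coefficients `z (t-1) - z t` (`z (-1) = 0`, `z (c-1) = 0`), `t < c`: all `z t` are in `B Z`. (`B = 0` gives injectivity.)
Isomorphic varieties: pull-backs. -/
def S_MEA : Prop := ∀ (G : GeoData) (K : G.V → Type u) [∀ X, AddCommGroup (K X)] (F : ℕ → ∀ X, AddSubgroup (K X))
  (ι : Type) (T : Core G K F ι) (B C : ∀ X, AddSubgroup (K X)), Good T B → Good T C → (∀ X, B X ≤ C X) →
  (∀ X Y : G.V, Nonempty (X ≅ Y) → cl (Qt B C X) = cl (Qt B C Y)) ∧
  (∀ (P X : G.V) (a : ℕ), G.prod P X a → cl (Qt B C P) = (a + 1) • cl (Qt B C X)) ∧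
  ∀ {X' X E Z : G.V} (β : X' ⟶ X) (j : E ⟶ X') (c : ℕ), G.blow β j Z c →
    cl (Qt B C X') = cl (Qt B C X) + (c - 1) • cl (Qt B C Z) ∧ cl (Qt B C E) = c • cl (Qt B C Z)

/-- FGU; hypotheses MOT, MEA. If `C X / B X` is finitely generated for all `X` then its class is the same for
K-equivalent varieties. Proof. `μ X = log |Q / m Q|` for `m ≥ 1` (`qm`, transported to `Type` via a surjection
`ℤ^n → Q`), MOT, MEA and `t_FGM`. -/
def S_FGU : Prop := ∀ (G : GeoData) (K : G.V → Type u) [∀ X, AddCommGroup (K X)] (F : ℕ → ∀ X, AddSubgroup (K X))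
  (ι : Type) (T : Core G K F ι) (B C : ∀ X, AddSubgroup (K X)), Good T B → Good T C → (∀ X, B X ≤ C X) →
  (∀ X, Module.Finite ℤ (Qt B C X)) → ∀ X Y : G.V, KEq G X Y → cl (Qt B C X) = cl (Qt B C Y)

/-- TOR; hypotheses MOT, MEA. If the `n`-torsion of `C X / B X` is finite for all `X` then its cardinality is the same for
K-equivalent varieties. Proof. `μ X = log |{x ∈ Q | n x = 0}|` (nonempty and finite; `tr` in `Pool/Agent/KEQ/Gr.lean`). -/
def S_TOR : Prop := ∀ (G : GeoData) (K : G.V → Type u) [∀ X, AddCommGroup (K X)] (F : ℕ → ∀ X, AddSubgroup (K X))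
  (ι : Type) (T : Core G K F ι) (B C : ∀ X, AddSubgroup (K X)), Good T B → Good T C → (∀ X, B X ≤ C X) →
  ∀ n : ℕ, (∀ X, Finite {x : Qt B C X // n • x = 0}) → ∀ X Y : G.V, KEq G X Y →
    Nat.card {x : Qt B C X // n • x = 0} = Nat.card {x : Qt B C Y // n • x = 0}

end Pool.Agent.KE5
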