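import Pool.Agent.KE5.St

/-!
# Natural subgroups along birational morphisms
-/

set_option autoImplicit false

open CategoryTheory
open Pool.Agent.KEQ (GeoData Geo SameExc Tower)

namespace Pool.Agent.KE5

universe u

variable {G : GeoData} {K : G.V → Type u} [∀ X, AddCommGroup (K X)] {F : ℕ → ∀ X, AddSubgroup (K X)}
  {ι : Type} {T : Core G K F ι} {B H : ∀ X, AddSubgroup (K X)}

/-! ### One blow-up -/

theorem bundle_coef (hB : Good T B) {E Z : G.V} {m : ℕ} {φ : ℕ → (K Z →+ K E)}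
    (hφ : T.Bundle E Z (m + 1) φ) (z : ℕ → K Z)
    (h : ∑ t ∈ Finset.range m, (φ (t + 1) (z t) - φ t (z t)) ∈ B E) : ∀ t < m, z t ∈ B Z := by
  have h1 : ∑ t ∈ Finset.range (m + 1), φ t ((fun s => Nat.casesOn (motive := fun _ => K Z) s 0 z) t -
      (if t < m then z t else 0)) = ∑ t ∈ Finset.range m, (φ (t + 1) (z t) - φ t (z t)) := by
    simp only [map_sub]
    rw [Finset.sum_sub_distrib, Finset.sum_sub_distrib]
    congr 1
    · rw [Finset.sum_range_succ']
      simp
    · rw [Finset.sum_range_succ]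
      simp only [lt_irrefl, if_false, map_zero, add_zero]
      refine Finset.sum_congr rfl fun t ht => ?_
      rw [if_pos (Finset.mem_range.1 ht)]
  rw [← h1, hB.bundle E Z (m + 1) φ hφ] at h
  intro t
  induction t with
  | zero =>
    intro ht
    have h2 := h 0 (by omega)
    rw [if_pos ht] at h2
    have h3 : (0 : K Z) - z 0 ∈ B Z := h2
    rw [zero_sub, neg_mem_iff] at h3
    exact h3
  | succ t ih =>
    intro ht
    have h2 := h (t + 1) (by omega)
    rw [if_pos ht] at h2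
    have h3 : z t - z (t + 1) ∈ B Z := h2
    have h4 := (B Z).sub_mem (ih (by omega)) h3
    rwa [sub_sub_cancel] at h4

theorem bundle_shift (hB : Good T B) {E Z : G.V} {m : ℕ} {φ : ℕ → (K Z →+ K E)}
    (hφ : T.Bundle E Z (m + 1) φ) (z : ℕ → K Z) (hz : ∀ t < m, z t ∈ B Z) :
    ∑ t ∈ Finset.range m, φ (t + 1) (z t) ∈ B E := by
  have h1 : ∑ t ∈ Finset.range (m + 1), φ t ((fun s => Nat.casesOn (motive := fun _ => K Z) s 0 z) t) =
      ∑ t ∈ Finset.range m, φ (t + 1) (z t) := by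
    rw [Finset.sum_range_succ']
    simp
  rw [← h1, hB.bundle E Z (m + 1) φ hφ]
  intro t ht
  cases t with
  | zero => exact (B Z).zero_mem
  | succ t => exact hz t (by omega)

/-- The structure of a class on a blow-up. -/
theorem blow_str (T : Core G K F ι) {X' X E Z : G.V} (β : X' ⟶ X) (j : E ⟶ X') (c : ℕ)
    (hb : G.blow β j Z c) : ∃ (m : ℕ) (φ : ℕ → (K Z →+ K E)), c = m + 1 ∧ T.Bundle E Z (m + 1) φ ∧
      ∀ w : K X', ∃ z : ℕ → K Z,
        w = T.pull β (T.push β w) + T.push j (∑ t ∈ Finset.range m, φ (t + 1) (z t)) ∧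
        T.pull j (T.push j (∑ t ∈ Finset.range m, φ (t + 1) (z t))) =
          ∑ t ∈ Finset.range m, (φ (t + 1) (z t) - φ t (z t)) := by
  obtain ⟨hc, hdim, hbir, -, -⟩ := T.blows β j c hb
  obtain ⟨φ, hφ, hs, hv, hw⟩ := T.blowUps β j c hb
  obtain ⟨m, rfl⟩ : ∃ m, c = m + 1 := ⟨c - 1, by omega⟩
  refine ⟨m, φ, rfl, hφ, fun w => ?_⟩
  obtain ⟨x, z, hz⟩ := hw w
  rw [Nat.add_sub_cancel, ← map_sum] at hz
  have h1 : T.push β (T.push j (∑ t ∈ Finset.range m, φ (t + 1) (z t))) = 0 := by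
    rw [map_sum, map_sum]
    refine Finset.sum_eq_zero fun t ht => hv t (z t) ?_
    have := Finset.mem_range.1 ht
    omega
  have h2 : T.push β w = x := by
    rw [hz, map_add, h1, add_zero, T.functorial.2.2.2 β x hbir]
  refine ⟨z, by rw [h2]; exact hz, ?_⟩
  rw [map_sum, map_sum]
  exact Finset.sum_congr rfl fun t _ => hs t (z t)

theorem blow_inj (hB : Good T B) {X' X E Z : G.V} (β : X' ⟶ X) (j : E ⟶ X') (c : ℕ)
    (hb : G.blow β j Z c) (w : K X') (h1 : T.push β w ∈ B X) (h2 : T.pull j w ∈ B E) : w ∈ B X' := by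
  obtain ⟨m, φ, rfl, hφ, h⟩ := blow_str T β j c hb
  obtain ⟨z, hw, hz⟩ := h w
  have h3 : T.pull β (T.push β w) ∈ B X' := hB.pull β _ h1
  have h4 : T.pull j (T.push j (∑ t ∈ Finset.range m, φ (t + 1) (z t))) ∈ B E := by
    have h5 : T.pull j (T.push j (∑ t ∈ Finset.range m, φ (t + 1) (z t))) =
        T.pull j w - T.pull j (T.pull β (T.push β w)) := by
      conv_rhs => rw [hw]
      rw [map_add]
      have h6 : T.push β w = T.push β (T.pull β (T.push β w) +
        T.push j (∑ t ∈ Finset.range m, φ (t + 1) (z t))) := by rw [← hw]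
      rw [← h6]
      abel
    rw [h5]
    exact (B E).sub_mem h2 (hB.pull j _ h3)
  rw [hz] at h4
  have h5 := bundle_coef hB hφ z h4
  rw [hw]
  exact (B X').add_mem h3 (hB.push j _ (bundle_shift hB hφ z h5))

theorem blow_ker (hH : Good T H) {X' X E Z : G.V} (β : X' ⟶ X) (j : E ⟶ X') (c : ℕ)
    (hb : G.blow β j Z c) (w : K X') (hw : w ∈ H X') (h0 : T.push β w = 0) :
    ∃ u ∈ H E, w = T.push j u := by
  obtain ⟨m, φ, rfl, hφ, h⟩ := blow_str T β j c hb
  obtain ⟨z, hw', hz⟩ := h w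
  rw [h0, map_zero, zero_add] at hw'
  have h1 : T.pull j w ∈ H E := hH.pull j w hw
  rw [hw', hz] at h1
  exact ⟨_, bundle_shift hH hφ z (bundle_coef hH hφ z h1), hw'⟩

/-! ### Classes whose restrictions to small sets are known -/

/-- The classes in `C` are mapped to `C` under birational morphisms of varieties of dimension `n`, and their restrictions
to small sets are in `B`. -/
structure Mov (T : Core G K F ι) (n : ℕ) (C B : ∀ X, AddSubgroup (K X)) : Prop where
  up : ∀ {X Y : G.V} (f : X ⟶ Y) (y : K Y), G.bir f → G.dim Y = n → y ∈ C Y → T.pull f y ∈ C X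
  down : ∀ {X Y : G.V} (f : X ⟶ Y) (x : K X), G.bir f → G.dim X = n → x ∈ C X → T.push f x ∈ C Y
  small : ∀ {W X : G.V} (g : W ⟶ X) (x : K X), G.dim X = n → G.small g → x ∈ C X → T.pull g x ∈ B W

variable {C : ∀ X, AddSubgroup (K X)} {n : ℕ}

theorem inj_tower (hB : Good T B) (hC : Mov T n C B) {Z X : G.V} (f : Z ⟶ X) (hf : Tower G f)
    (hX : G.dim X = n) : G.bir f ∧ ∀ w ∈ C Z, T.push f w ∈ B X →
      (∀ (D : G.V) (i : D ⟶ Z), G.dvs i → G.small (i ≫ f) → T.pull i w ∈ B D) → w ∈ B Z := by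
  induction hf with
  | iso f hf =>
    have hb : G.bir f := T.birs.1 f hf
    refine ⟨hb, fun w _ hw _ => ?_⟩
    have h1 : T.pull f (T.pull (inv f) w) = w := by
      rw [← T.functorial.2.1, IsIso.hom_inv_id, T.functorial.1]
    have h2 : T.push f w = T.pull (inv f) w := by
      conv_lhs => rw [← h1]
      exact T.functorial.2.2.2 f _ hb
    rw [h2] at hw
    rw [← h1]
    exact hB.pull f _ hw
  | @step Z Y X E b j W c f hbl _ ih =>
    obtain ⟨hf, ih⟩ := ih hX
    obtain ⟨hc, hdim, hb, hj, hs⟩ := T.blows b j c hbl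
    have hbf : G.bir (b ≫ f) := T.birs.2.1 b f hb hf
    have hY : G.dim Y = n := (T.birs.2.2 f hf).trans hX
    have hZ : G.dim Z = n := (T.birs.2.2 b hb).trans hY
    refine ⟨hbf, fun w hwC hw hi => ?_⟩
    have hyC : T.push b w ∈ C Y := hC.down b w hb hZ hwC
    have hw0 : w - T.pull b (T.push b w) ∈ B Z := by
      apply blow_inj hB b j c hbl
      · rw [map_sub, T.functorial.2.2.2 _ _ hb, sub_self]
        exact (B Y).zero_mem
      · rw [map_sub, ← T.functorial.2.1]
        refine (B E).sub_mem (hi E j hj ?_) (hC.small (j ≫ b) _ hY hs hyC)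
        rw [← Category.assoc]
        exact T.smalls.1 _ _ hs hf
    have hy : T.push b w ∈ B Y := by
      apply ih _ hyC
      · rw [← T.functorial.2.2.1]
        exact hw
      · intro D i hd hsm
        obtain ⟨D', τ, i', hτ, hd', he⟩ := T.strict i b hd hb
        have h1 : T.pull i' w ∈ B D' := by
          apply hi D' i' hd'
          rw [← Category.assoc, he, Category.assoc]
          exact (T.smalls.2 τ _ hτ).2 hsm
        have h2 : T.pull i' (T.pull b (T.push b w)) ∈ B D' := by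
          have h3 := (B D').sub_mem h1 (hB.pull i' _ hw0)
          rwa [← map_sub, sub_sub_cancel] at h3
        rw [← T.functorial.2.1, he, T.functorial.2.1] at h2
        have h3 := hB.push τ _ h2
        rwa [T.functorial.2.2.2 τ _ hτ] at h3
    have h4 := (B Z).add_mem hw0 (hB.pull b _ hy)
    rwa [sub_add_cancel] at h4

theorem inj_bir (hB : Good T B) (hC : Mov T n C B) {Z X : G.V} (f : Z ⟶ X) (hf : G.bir f)
    (hX : G.dim X = n) (w : K Z) (hwC : w ∈ C Z) (hw : T.push f w ∈ B X)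
    (hi : ∀ (D : G.V) (i : D ⟶ Z), G.dvs i → G.small (i ≫ f) → T.pull i w ∈ B D) : w ∈ B Z := by
  obtain ⟨Z', h, hh, htow⟩ := T.hironaka f hf
  obtain ⟨hhf, key⟩ := inj_tower hB hC (h ≫ f) htow hX
  have hZ : G.dim Z = n := (T.birs.2.2 f hf).trans hX
  have h0 : T.pull h w ∈ B Z' := by
    apply key _ (hC.up h w hh hZ hwC)
    · rw [T.functorial.2.2.1, T.functorial.2.2.2 _ _ hh]
      exact hw
    · intro D i hd hsm
      rw [← T.functorial.2.1]
      rcases T.divisors i h hd hh with h1 | h1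
      · exact hC.small (i ≫ h) w hZ h1 hwC
      · apply hi D (i ≫ h) h1
        rwa [Category.assoc]
  have h1 := hB.push h _ h0
  rwa [T.functorial.2.2.2 h w hh] at h1

theorem canon (hB : Good T B) (hC : Mov T n C B) {Z X Y : G.V} (f : Z ⟶ X) (g : Z ⟶ Y)
    (hf : G.bir f) (hg : G.bir g) (hE : SameExc G f g) (hX : G.dim X = n) (x : K X) (hx : x ∈ C X) :
    T.pull f x - T.pull g (T.push g (T.pull f x)) ∈ B Z := by
  have hZ : G.dim Z = n := (T.birs.2.2 f hf).trans hX
  have hY : G.dim Y = n := (T.birs.2.2 g hg).symm.trans hZ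
  have h1 : T.pull f x ∈ C Z := hC.up f x hf hX hx
  have h2 : T.push g (T.pull f x) ∈ C Y := hC.down g _ hg hZ h1
  apply inj_bir hB hC g hg hY _ ((C Z).sub_mem h1 (hC.up g _ hg hY h2))
  · rw [map_sub, T.functorial.2.2.2 _ _ hg, sub_self]
    exact (B Y).zero_mem
  · intro D i hd hsm
    rw [map_sub, ← T.functorial.2.1, ← T.functorial.2.1]
    exact (B D).sub_mem (hC.small (i ≫ f) x hX ((hE D i hd).2 hsm) hx)
      (hC.small (i ≫ g) _ hY hsm h2)

/-! ### The kernel of the push-forward -/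

/-- The classes that come from the contracted divisors. -/
def Exc (T : Core G K F ι) (H : ∀ X, AddSubgroup (K X)) {Z X : G.V} (f : Z ⟶ X) : AddSubgroup (K Z) :=
  AddSubgroup.closure {r | ∃ (D : G.V) (i : D ⟶ Z) (u : K D), G.dvs i ∧ G.small (i ≫ f) ∧ u ∈ H D ∧
    r = T.push i u}

theorem ker_tower (hB : Good T B) (hH : Good T H) {Z X : G.V} (f : Z ⟶ X) (hf : Tower G f) :
    G.bir f ∧ ∀ w ∈ H Z, T.push f w ∈ B X → w ∈ B Z ⊔ Exc T H f := by
  induction hf with
  | iso f hf =>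
    have hb : G.bir f := T.birs.1 f hf
    refine ⟨hb, fun w _ hw => ?_⟩
    have h1 : T.pull f (T.pull (inv f) w) = w := by
      rw [← T.functorial.2.1, IsIso.hom_inv_id, T.functorial.1]
    have h2 : T.push f w = T.pull (inv f) w := by
      conv_lhs => rw [← h1]
      exact T.functorial.2.2.2 f _ hb
    rw [h2] at hw
    rw [← h1]
    exact AddSubgroup.mem_sup_left (hB.pull f _ hw)
  | @step Z Y X E b j W c f hbl _ ih =>
    obtain ⟨hf, ih⟩ := ih
    obtain ⟨hc, hdim, hb, hj, hs⟩ := T.blows b j c hbl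
    refine ⟨T.birs.2.1 b f hb hf, fun w hwH hw => ?_⟩
    have hEx : ∀ u ∈ H E, T.push j u ∈ Exc T H (b ≫ f) := fun u hu =>
      AddSubgroup.subset_closure ⟨E, j, u, hj, by
        rw [← Category.assoc]
        exact T.smalls.1 _ _ hs hf, hu, rfl⟩
    have hker : ∀ v ∈ H Z, T.push b v = 0 → v ∈ Exc T H (b ≫ f) := by
      intro v hv h0
      obtain ⟨u, hu, rfl⟩ := blow_ker hH b j c hbl v hv h0
      exact hEx u hu
    have hup : ∀ y ∈ Exc T H f, T.pull b y ∈ Exc T H (b ≫ f) := by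
      intro y hy
      refine AddSubgroup.closure_induction (p := fun y _ => T.pull b y ∈ Exc T H (b ≫ f)) ?_ ?_ ?_ ?_ hy
      · rintro _ ⟨D, i, u, hd, hsm, hu, rfl⟩
        obtain ⟨D', τ, i', hτ, hd', he⟩ := T.strict i b hd hb
        have h1 : T.push i' (T.pull τ u) ∈ Exc T H (b ≫ f) :=
          AddSubgroup.subset_closure ⟨D', i', T.pull τ u, hd', by
            rw [← Category.assoc, he, Category.assoc]
            exact (T.smalls.2 τ _ hτ).2 hsm, hH.pull τ u hu, rfl⟩
        have h2 : T.pull b (T.push i u) - T.push i' (T.pull τ u) ∈ Exc T H (b ≫ f) := by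
          apply hker
          · exact (H Z).sub_mem (hH.pull b _ (hH.push i u hu)) (hH.push i' _ (hH.pull τ u hu))
          · rw [map_sub, T.functorial.2.2.2 _ _ hb, ← T.functorial.2.2.1, he, T.functorial.2.2.1,
              T.functorial.2.2.2 _ _ hτ, sub_self]
        have h3 := AddSubgroup.add_mem _ h2 h1
        rwa [sub_add_cancel] at h3
      · rw [map_zero]
        exact AddSubgroup.zero_mem _
      · intro a a' _ _ ha ha'
        rw [map_add]
        exact AddSubgroup.add_mem _ ha ha'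
      · intro a _ ha
        rw [map_neg]
        exact AddSubgroup.neg_mem _ ha
    have hy := ih (T.push b w) (hH.push b w hwH) (by rw [← T.functorial.2.2.1]; exact hw)
    obtain ⟨y₁, hy₁, y₂, hy₂, hy⟩ := AddSubgroup.mem_sup.1 hy
    have h1 : w - T.pull b (T.push b w) ∈ Exc T H (b ≫ f) := by
      apply hker
      · exact (H Z).sub_mem hwH (hH.pull b _ (hH.push b w hwH))
      · rw [map_sub, T.functorial.2.2.2 _ _ hb, sub_self]
    have h2 : w = T.pull b y₁ + (T.pull b y₂ + (w - T.pull b (T.push b w))) := by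
      rw [← hy, map_add]
      abel
    rw [h2]
    exact AddSubgroup.add_mem _ (AddSubgroup.mem_sup_left (hB.pull b _ hy₁))
      (AddSubgroup.mem_sup_right (AddSubgroup.add_mem _ (hup _ hy₂) h1))

theorem push_small (hB : Good T B) (hH : Good T H) (q : ℕ)
    (hq : ∀ (V : G.V), ∀ x ∈ H V, ∃ b ∈ B V, x - b ∈ F q V) {W Y : G.V} (s : W ⟶ Y) (hs : G.small s)
    (u : K W) (hu : u ∈ H W) : T.push s u ∈ B Y ⊔ F (q + 2) Y := by
  obtain ⟨W', V, τ, h, i, hτ, he, hd⟩ := T.images s hs
  have h1 : T.push s u = T.push i (T.push h (T.pull τ u)) := by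
    rw [← T.functorial.2.2.1, ← he, T.functorial.2.2.1, T.functorial.2.2.2 _ _ hτ]
  obtain ⟨b, hb, hx⟩ := hq V _ (hH.push h _ (hH.pull τ u hu))
  have h2 : T.push i (T.push h (T.pull τ u) - b) ∈ F (q + 2) Y :=
    T.filtration.2.2 i q (q + 2) _ (by omega) hx
  rw [h1, ← add_sub_cancel b (T.push h (T.pull τ u)), map_add]
  exact AddSubgroup.add_mem _ (AddSubgroup.mem_sup_left (hB.push i b hb))
    (AddSubgroup.mem_sup_right h2)

theorem ker_push (hB : Good T B) (hH : Good T H) (q : ℕ)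
    (hq : ∀ (V : G.V), ∀ x ∈ H V, ∃ b ∈ B V, x - b ∈ F q V) {Z X Y : G.V} (f : Z ⟶ X) (g : Z ⟶ Y)
    (hf : G.bir f) (hg : G.bir g) (hE : SameExc G f g) (w : K Z) (hwH : w ∈ H Z)
    (hw : T.push f w ∈ B X) : T.push g w ∈ B Y ⊔ F (q + 2) Y := by
  obtain ⟨Z', h, hh, htow⟩ := T.hironaka f hf
  obtain ⟨hhf, key⟩ := ker_tower hB hH (h ≫ f) htow
  have h1 := key (T.pull h w) (hH.pull h w hwH)
    (by rw [T.functorial.2.2.1, T.functorial.2.2.2 _ _ hh]; exact hw)
  have h2 : T.push g w = T.push (h ≫ g) (T.pull h w) := by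
    rw [T.functorial.2.2.1, T.functorial.2.2.2 _ _ hh]
  obtain ⟨b, hb, e, he, hbe⟩ := AddSubgroup.mem_sup.1 h1
  rw [h2, ← hbe, map_add]
  refine AddSubgroup.add_mem _ (AddSubgroup.mem_sup_left (hB.push _ _ hb)) ?_
  refine AddSubgroup.closure_induction (p := fun e _ => T.push (h ≫ g) e ∈ B Y ⊔ F (q + 2) Y)
    ?_ ?_ ?_ ?_ he
  · rintro _ ⟨D, i, u, hd, hsm, hu, rfl⟩
    rw [← T.functorial.2.2.1]
    refine push_small hB hH q hq _ ?_ u hu
    rw [← Category.assoc]
    rcases T.divisors i h hd hh with h3 | h3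
    · exact T.smalls.1 _ _ h3 hg
    · refine (hE D (i ≫ h) h3).1 ?_
      rwa [Category.assoc]
  · rw [map_zero]
    exact AddSubgroup.zero_mem _
  · intro a a' _ _ ha ha'
    rw [map_add]
    exact AddSubgroup.add_mem _ ha ha'
  · intro a _ ha
    rw [map_neg]
    exact AddSubgroup.neg_mem _ ha

end Pool.Agent.KE5
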